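import Pool.Agent.ORB.Defs

/-!
Project ORG (MP_e2be99_lc): orbits of formulas of bounded depth and bounded occurrence over leaves
which lie in small spaces closed under a frame of affine vector fields (for example sparse
polynomials, and entries of products of matrices of variables).  Definitions used in the statement;
`OccFormula`, `aff`, `mSeq`, `seeds`, `AA`, `point`, `hittingSet` are those of `Pool.Agent.ORB.Defs`.
-/

set_option autoImplicit false

namespace Pool.Agent.ORG

open MvPolynomial Pool.Agent.ORB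

/-- `g` is in a space of dimension at most `s` which is closed under the vector fields
`X_j = ∑ i, a_ji ∂/∂y_i`. -/
def FrameLeaf {K : Type*} [Field K] {n : ℕ} (a : Matrix (Fin n) (Fin n) (MvPolynomial (Fin n) K))
    (s : ℕ) (g : MvPolynomial (Fin n) K) : Prop :=
  ∃ W : Submodule K (MvPolynomial (Fin n) K), FiniteDimensional K W ∧ Module.finrank K W ≤ s ∧
    g ∈ W ∧ ∀ h ∈ W, ∀ j, ∑ i, a j i * pderiv i h ∈ W

/-- The vector fields `X_j` are affine, and they are linearly independent at every point at which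
certain nonzero polynomials `q_l` do not vanish; every `q_l` is in a space of dimension at most `s`
closed under all partial derivatives. -/
def IsFrame {K : Type*} [Field K] {n : ℕ} (a : Matrix (Fin n) (Fin n) (MvPolynomial (Fin n) K))
    (s : ℕ) : Prop :=
  (∀ j i, (a j i).totalDegree ≤ 1) ∧
    ∃ (m : ℕ) (q : Fin m → MvPolynomial (Fin n) K), (∀ l, q l ≠ 0) ∧ (∀ l, FrameLeaf 1 s (q l)) ∧
      ∀ β : Fin n → K, (∀ l, eval β (q l) ≠ 0) → (a.map (eval β)).det ≠ 0

/-- `g` is obtained by an invertible affine substitution from a polynomial which is algebraic over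
the field generated by formulas `T_i` of depth `Δ` and occurrence `κ` over the leaves of one frame,
at most `k` of which are algebraically independent. -/
def FrameOrbitClass {K : Type*} [Field K] {n : ℕ} (κ k s Δ : ℕ) (g : MvPolynomial (Fin n) K) : Prop :=
  ∃ (A : Matrix (Fin n) (Fin n) K) (b : Fin n → K)
    (a : Matrix (Fin n) (Fin n) (MvPolynomial (Fin n) K)) (N : ℕ)
    (T : Fin N → MvPolynomial (Fin n) K) (h : MvPolynomial (Fin n) K),
    A.det ≠ 0 ∧ IsFrame a s ∧ (∀ i, OccFormula κ (FrameLeaf a s) Δ (T i)) ∧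
    (∀ c : Finset (Fin N), AlgebraicIndepOn K T (c : Set (Fin N)) → c.card ≤ k) ∧
    IsAlgebraic (Algebra.adjoin K (Set.range T)) h ∧ g = aff A b h

/-- the dimension `m! (n^(Δ+1) s)^m + s + 2`, `m = m_Δ` -/
def dimF (n κ k s Δ : ℕ) : ℕ :=
  (mSeq κ k Δ).factorial * (n ^ (Δ + 1) * s) ^ mSeq κ k Δ + s + 2

/-- `M = n (m! (n^(Δ+1) s)^m + s + 2)^2` -/
def ordF (n κ k s Δ : ℕ) : ℕ := n * dimF n κ k s Δ ^ 2

/-- The matrix `M_l` of variables; the variables are the entries of `T` matrices of size `w` and `r`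
other ones. -/
noncomputable def Mt (K : Type*) [Field K] {n T w r : ℕ}
    (e : Fin n ≃ (Fin T × Fin w × Fin w) ⊕ Fin r) (l : Fin T) :
    Matrix (Fin w) (Fin w) (MvPolynomial (Fin n) K) :=
  Matrix.of fun a b => X (e.symm (Sum.inl (l, a, b)))

/-- The matrix product `M_p M_{p+1} ... M_{p+d-1}`. -/
noncomputable def seg (K : Type*) [Field K] {n T w r : ℕ}
    (e : Fin n ≃ (Fin T × Fin w × Fin w) ⊕ Fin r) (p : ℕ) :
    ℕ → Matrix (Fin w) (Fin w) (MvPolynomial (Fin n) K)
  | 0 => 1
  | d + 1 => seg K e p d * if h : p + d < T then Mt K e ⟨p + d, h⟩ else 1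

/-- The frame: for the entry `(a, b)` of `M_l` the infinitesimal change `M_l ↦ E_ab M_l` and, if
`l ∉ cut`, `M_{l-1} ↦ - M_{l-1} E_ab`; for another variable `y_p` the field `∂/∂y_p` if `p ∈ B`
and `y_p ∂/∂y_p` otherwise. -/
noncomputable def immFrame (K : Type*) [Field K] {n T w r : ℕ}
    (e : Fin n ≃ (Fin T × Fin w × Fin w) ⊕ Fin r) (cut : Finset (Fin T)) (B : Finset (Fin r)) :
    Matrix (Fin n) (Fin n) (MvPolynomial (Fin n) K) :=
  Matrix.of fun j i =>
    match e j, e i with
    | Sum.inl (l, a, b), Sum.inl (l', a', b') =>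
        (if l' = l ∧ a' = a then X (e.symm (Sum.inl (l, b, b'))) else 0) -
          (if (l' : ℕ) + 1 = l ∧ l ∉ cut ∧ b' = b then X (e.symm (Sum.inl (l', a', a))) else 0)
    | Sum.inr p, Sum.inr p' =>
        if p = p' then (if p ∈ B then 1 else X (e.symm (Sum.inr p))) else 0
    | _, _ => 0

end Pool.Agent.ORG
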