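import Pool.Agent.ORG.InitB

/-!
# ORG: the initial form of a frame leaf at a good point has a small space of derivatives
-/

set_option autoImplicit false

namespace Pool.Agent.ORG

open MvPolynomial Pool.Agent.ORB

variable {K : Type*} [Field K] {n : ℕ}

private theorem in_pd (β : Fin n → K) (j : Fin n) (h : MvPolynomial (Fin n) K) :
    pderiv j (tr β h) = tr β (pderiv j h) := by
  classical
  induction h using MvPolynomial.induction_on with
  | C a =>
    rw [pderiv_C, map_zero]
    have h1 : tr β (C a) = C a := by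
      unfold tr
      rw [aeval_C]
      rfl
    rw [h1, pderiv_C]
  | add p q hp hq => rw [map_add, map_add, map_add, map_add, hp, hq]
  | mul_X p i hp =>
    have h1 : tr β (X i) = C (β i) + X i := by
      unfold tr
      rw [aeval_X]
    rw [map_mul, h1, pderiv_mul, pderiv_mul, hp, map_add, pderiv_C, zero_add, map_add, map_mul, map_mul, h1,
      pderiv_X]
    congr 2
    by_cases hij : i = j
    · subst hij
      rw [Pi.single_eq_same, map_one]
    · rw [Pi.single_eq_of_ne hij, map_zero]

private theorem in_inv (β : Fin n → K) (h : MvPolynomial (Fin n) K) : tr (-β) (tr β h) = h := by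
  have h1 : (tr (-β)).comp (tr β) = AlgHom.id K (MvPolynomial (Fin n) K) := by
    apply MvPolynomial.algHom_ext
    intro i
    rw [AlgHom.comp_apply, AlgHom.id_apply]
    unfold tr
    rw [aeval_X, map_add, aeval_X, aeval_C]
    have h2 : algebraMap K (MvPolynomial (Fin n) K) (β i) = C (β i) := rfl
    rw [h2, Pi.neg_apply, C_neg]
    ring
  exact DFunLike.congr_fun h1 h

private theorem in_cc (β : Fin n → K) (p : MvPolynomial (Fin n) K) :
    constantCoeff (tr β p) = eval β p := by
  induction p using MvPolynomial.induction_on with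
  | C a =>
    unfold tr
    rw [aeval_C, eval_C]
    exact constantCoeff_C _ _
  | add p q hp hq => rw [map_add, map_add, map_add, hp, hq]
  | mul_X p i hp =>
    rw [map_mul, map_mul, map_mul, hp, eval_X]
    unfold tr
    rw [aeval_X, map_add, constantCoeff_X, add_zero, constantCoeff_C]

/- PLAN. Copy of `Pool.Agent.ORB.Init` (`exists_initial`): `W' = W.map (tr β)` is closed under
`∑ i, tr β (a j i) * pderiv i h` (`pderiv j (tr β h) = tr β (pderiv j h)`), and
`constantCoeff (tr β p) = eval β p`, so `c j i = tr β (a j i)` in `pderiv_mem_span_initS`. -/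
theorem exists_initial {a : Matrix (Fin n) (Fin n) (MvPolynomial (Fin n) K)} {s : ℕ}
    {F : MvPolynomial (Fin n) K} (hF : FrameLeaf a s F) (hF0 : F ≠ 0) (β : Fin n → K)
    (hβ : (a.map (eval β)).det ≠ 0) :
    ∃ (m : ℕ) (V : Submodule K (MvPolynomial (Fin n) K)), FiniteDimensional K V ∧
      Module.finrank K V ≤ s ∧ (∀ h ∈ V, ∀ j, pderiv j h ∈ V) ∧
      homogeneousComponent m (tr β F) ∈ V ∧ homogeneousComponent m (tr β F) ≠ 0 ∧
      ∀ k < m, homogeneousComponent k (tr β F) = 0 := by
  classical
  obtain ⟨W, hWf, hWs, hFW, hWa⟩ := hF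
  obtain ⟨W', hW'⟩ : ∃ W' : Submodule K (MvPolynomial (Fin n) K), W' = W.map (tr β).toLinearMap := ⟨_, rfl⟩
  have hfin' : FiniteDimensional K W' := by
    rw [hW']
    infer_instance
  have hmem : ∀ h, h ∈ W' ↔ ∃ g ∈ W, tr β g = h := by
    intro h
    rw [hW', Submodule.mem_map]
    rfl
  have hc : ((a.map (tr β)).map constantCoeff).det ≠ 0 := by
    have h1 : (a.map (tr β)).map constantCoeff = a.map (eval β) := by
      ext j i
      rw [Matrix.map_apply, Matrix.map_apply, Matrix.map_apply, in_cc]
    rw [h1]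
    exact hβ
  have hWc : ∀ h ∈ W', ∀ j, ∑ i, (a.map (tr β)) j i * pderiv i h ∈ W' := by
    intro h hh j
    obtain ⟨g, hg, rfl⟩ := (hmem h).1 hh
    refine (hmem _).2 ⟨_, hWa g hg j, ?_⟩
    rw [map_sum]
    refine Finset.sum_congr rfl fun i _ => ?_
    rw [map_mul, Matrix.map_apply, in_pd]
  obtain ⟨hV1, hV2⟩ := finrank_initS W'
  have hne : tr β F ≠ 0 := by
    intro h0
    apply hF0
    rw [← in_inv β F, h0, map_zero]
  have hex : ∃ m, homogeneousComponent m (tr β F) ≠ 0 := by
    by_contra hcon
    push Not at hcon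
    apply hne
    rw [← sum_homogeneousComponent (tr β F)]
    exact Finset.sum_eq_zero fun i _ => hcon i
  refine ⟨Nat.find hex, Submodule.span K (initS W'), hV1, ?_, ?_, ?_, Nat.find_spec hex, ?_⟩
  · refine hV2.trans (le_trans ?_ hWs)
    rw [hW']
    exact Submodule.finrank_map_le _ _
  · intro h hh j
    exact pderiv_mem_span_initS _ hc W' hWc h hh j
  · refine Submodule.subset_span ⟨Nat.find hex, tr β F, (hmem _).2 ⟨F, hFW, rfl⟩, fun k hk => ?_, rfl⟩
    exact not_not.1 (Nat.find_min hex hk)
  · intro k hk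
    exact not_not.1 (Nat.find_min hex hk)

end Pool.Agent.ORG
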