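import Pool.Agent.ORG.Defs
import Pool.Agent.ORB.Gate

/-!
# ORG: closure properties of frame leaves
-/

set_option autoImplicit false

namespace Pool.Agent.ORG

open MvPolynomial Pool.Agent.ORB

variable {K : Type*} [Field K] {n : ℕ} {a : Matrix (Fin n) (Fin n) (MvPolynomial (Fin n) K)}

/- PLAN. Copy of `Pool.Agent.ORB.LeafA` / `LeafM` / `Leaf` (same proofs, shorter: the operation
`h ↦ ∑ i, a j i * pderiv i h` is additive and satisfies the Leibniz rule). -/

theorem FrameLeaf.mono {s s' : ℕ} (h : s ≤ s') {g : MvPolynomial (Fin n) K}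
    (hg : FrameLeaf a s g) : FrameLeaf a s' g := by
  obtain ⟨W, h1, h2, h3⟩ := hg
  exact ⟨W, h1, h2.trans h, h3⟩

private theorem sp_add (j : Fin n) (x y : MvPolynomial (Fin n) K) :
    ∑ i, a j i * pderiv i (x + y) = ∑ i, a j i * pderiv i x + ∑ i, a j i * pderiv i y := by
  rw [← Finset.sum_add_distrib]
  exact Finset.sum_congr rfl fun i _ => by rw [map_add, mul_add]

private theorem sp_mul (j : Fin n) (x y : MvPolynomial (Fin n) K) :
    ∑ i, a j i * pderiv i (x * y) =
      x * ∑ i, a j i * pderiv i y + (∑ i, a j i * pderiv i x) * y := by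
  rw [Finset.mul_sum, Finset.sum_mul, ← Finset.sum_add_distrib]
  refine Finset.sum_congr rfl fun i _ => ?_
  rw [Derivation.leibniz, smul_eq_mul, smul_eq_mul]
  ring

theorem FrameLeaf.add {s₁ s₂ : ℕ} {g₁ g₂ : MvPolynomial (Fin n) K} (h₁ : FrameLeaf a s₁ g₁)
    (h₂ : FrameLeaf a s₂ g₂) : FrameLeaf a (s₁ + s₂) (g₁ + g₂) := by
  obtain ⟨W₁, f₁, d₁, m₁, b₁⟩ := h₁
  obtain ⟨W₂, f₂, d₂, m₂, b₂⟩ := h₂
  refine ⟨W₁ ⊔ W₂, inferInstance, ?_, ?_, ?_⟩
  · exact (Submodule.finrank_add_le_finrank_add_finrank W₁ W₂).trans (Nat.add_le_add d₁ d₂)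
  · exact Submodule.add_mem_sup m₁ m₂
  · intro h hh j
    obtain ⟨x, hx, y, hy, rfl⟩ := Submodule.mem_sup.mp hh
    rw [sp_add]
    exact Submodule.add_mem_sup (b₁ x hx j) (b₂ y hy j)

theorem FrameLeaf.neg {s : ℕ} {g : MvPolynomial (Fin n) K} (h : FrameLeaf a s g) :
    FrameLeaf a s (-g) := by
  obtain ⟨W, f, d, m, b⟩ := h
  exact ⟨W, f, d, W.neg_mem m, b⟩

theorem FrameLeaf.one : FrameLeaf a 1 (1 : MvPolynomial (Fin n) K) := by
  refine ⟨Submodule.span K {1}, inferInstance, ?_, Submodule.mem_span_singleton_self _, ?_⟩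
  · exact (finrank_span_singleton (K := K) (one_ne_zero : (1 : MvPolynomial (Fin n) K) ≠ 0)).le
  · intro h hh j
    obtain ⟨x, rfl⟩ := Submodule.mem_span_singleton.mp hh
    have h1 : ∑ i, a j i * pderiv i (x • (1 : MvPolynomial (Fin n) K)) = 0 := by
      refine Finset.sum_eq_zero fun i _ => ?_
      rw [Derivation.map_smul, MvPolynomial.pderiv_one, smul_zero, mul_zero]
    rw [h1]
    exact Submodule.zero_mem _

theorem FrameLeaf.zero : FrameLeaf a 0 (0 : MvPolynomial (Fin n) K) := by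
  refine ⟨⊥, inferInstance, ?_, Submodule.zero_mem _, ?_⟩
  · exact (finrank_bot K _).le
  · intro h hh j
    have h1 : ∑ i, a j i * pderiv i h = 0 := by
      refine Finset.sum_eq_zero fun i _ => ?_
      rw [(Submodule.mem_bot K).mp hh, map_zero, mul_zero]
    rw [h1]
    exact Submodule.zero_mem _

theorem FrameLeaf.mul {s₁ s₂ : ℕ} {g₁ g₂ : MvPolynomial (Fin n) K} (h₁ : FrameLeaf a s₁ g₁)
    (h₂ : FrameLeaf a s₂ g₂) : FrameLeaf a (s₁ * s₂) (g₁ * g₂) := by
  obtain ⟨W, hWf, hWs, hWg, hWB⟩ := h₁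
  obtain ⟨V, hVf, hVs, hVg, hVB⟩ := h₂
  have hr : LinearMap.range (Submodule.mulMap W V) = W * V := Submodule.mulMap_range W V
  refine ⟨W * V, ?_, ?_, Submodule.mul_mem_mul hWg hVg, ?_⟩
  · rw [← hr]
    infer_instance
  · rw [← hr]
    refine (LinearMap.finrank_range_le _).trans ?_
    rw [Module.finrank_tensorProduct]
    exact Nat.mul_le_mul hWs hVs
  · intro h hh j
    induction hh using Submodule.mul_induction_on' with
    | mem_mul_mem x hx y hy =>
      rw [sp_mul]
      exact Submodule.add_mem _ (Submodule.mul_mem_mul hx (hVB y hy j))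
        (Submodule.mul_mem_mul (hWB x hx j) hy)
    | add x _ y _ hx hy =>
      rw [sp_add]
      exact Submodule.add_mem _ hx hy

private theorem leaf_sum {ι : Type*} {s : ℕ} (S : Finset ι) (g : ι → MvPolynomial (Fin n) K)
    (h : ∀ i ∈ S, FrameLeaf a s (g i)) : FrameLeaf a (S.card * s) (∑ i ∈ S, g i) := by
  classical
  induction S using Finset.induction_on with
  | empty => simpa using (FrameLeaf.zero (a := a) (K := K) (n := n))
  | insert x S ha ih =>
    rw [Finset.sum_insert ha, Finset.card_insert_of_notMem ha]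
    have h1 := (h x (Finset.mem_insert_self x S)).add (ih fun i hi => h i (Finset.mem_insert_of_mem hi))
    have e : (S.card + 1) * s = s + S.card * s := by ring
    rw [e]
    exact h1

private theorem leaf_prod {ι : Type*} {s : ℕ} (S : Finset ι) (g : ι → MvPolynomial (Fin n) K)
    (h : ∀ i ∈ S, FrameLeaf a s (g i)) : FrameLeaf a (s ^ S.card) (∏ i ∈ S, g i) := by
  classical
  induction S using Finset.induction_on with
  | empty => simpa using (FrameLeaf.one (a := a) (K := K) (n := n))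
  | insert x S ha ih =>
    rw [Finset.prod_insert ha, Finset.card_insert_of_notMem ha]
    have h1 := (h x (Finset.mem_insert_self x S)).mul (ih fun i hi => h i (Finset.mem_insert_of_mem hi))
    rw [pow_succ']
    exact h1

theorem FrameLeaf.det {s M : ℕ} (A : Matrix (Fin M) (Fin M) (MvPolynomial (Fin n) K))
    (hA : ∀ i j, FrameLeaf a s (A i j)) : FrameLeaf a (M.factorial * s ^ M) A.det := by
  classical
  rw [Matrix.det_apply]
  have h1 : ∀ σ ∈ (Finset.univ : Finset (Equiv.Perm (Fin M))),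
      FrameLeaf a (s ^ M) (Equiv.Perm.sign σ • ∏ i, A (σ i) i) := by
    intro σ _
    have h2 : FrameLeaf a (s ^ M) (∏ i, A (σ i) i) := by
      have := leaf_prod (a := a) (s := s) Finset.univ (fun i => A (σ i) i) (fun i _ => hA _ _)
      simpa using this
    rcases Int.units_eq_one_or (Equiv.Perm.sign σ) with h3 | h3
    · rw [h3, one_smul]
      exact h2
    · rw [h3, Units.neg_smul, one_smul]
      exact h2.neg
  have h4 := leaf_sum (a := a) Finset.univ _ h1
  rwa [Finset.card_univ, Fintype.card_perm, Fintype.card_fin] at h4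

end Pool.Agent.ORG
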