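import Pool.Agent.ORG.Defs
import Pool.Agent.ORB.Gate

/-!
# ORG: derivatives of frame leaves, affine frames
-/

set_option autoImplicit false

namespace Pool.Agent.ORG

open MvPolynomial Pool.Agent.ORB

variable {K : Type*} [Field K] {n : ℕ} {a : Matrix (Fin n) (Fin n) (MvPolynomial (Fin n) K)}

private theorem pderiv_const_of_deg {f : MvPolynomial (Fin n) K} (hf : f.totalDegree ≤ 1)
    (k : Fin n) : ∃ c : K, MvPolynomial.pderiv k f = C c := by
  classical
  refine ⟨coeff 0 (MvPolynomial.pderiv k f), ?_⟩
  ext m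
  rw [coeff_C]
  split_ifs with h
  · rw [h]
  · rw [coeff_pderiv]
    have h0 : coeff (m + Finsupp.single k 1) f = 0 := by
      apply coeff_eq_zero_of_totalDegree_lt
      refine lt_of_le_of_lt hf ?_
      have h1 : ∑ i ∈ (m + Finsupp.single k 1 : Fin n →₀ ℕ).support,
          (m + Finsupp.single k 1 : Fin n →₀ ℕ) i =
          (m + Finsupp.single k 1 : Fin n →₀ ℕ).sum fun _ e => e := rfl
      rw [h1, Finsupp.sum_add_index' (fun _ => rfl) (fun _ _ _ => rfl),
        Finsupp.sum_single_index rfl]
      have h2 : 0 < m.sum fun _ e => e := by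
        obtain ⟨i, hi⟩ : ∃ i, m i ≠ 0 := by
          by_contra hcon
          push Not at hcon
          exact h (by ext i; simp [hcon i])
        have h3 : i ∈ m.support := Finsupp.mem_support_iff.2 hi
        exact lt_of_lt_of_le (Nat.pos_of_ne_zero hi)
          (Finset.single_le_sum (f := fun i => m i) (fun _ _ => Nat.zero_le _) h3)
      omega
    rw [h0, zero_mul]

private theorem pderiv_comm' (i k : Fin n) (f : MvPolynomial (Fin n) K) :
    MvPolynomial.pderiv i (MvPolynomial.pderiv k f) =
      MvPolynomial.pderiv k (MvPolynomial.pderiv i f) := by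
  ext m
  rw [coeff_pderiv, coeff_pderiv, coeff_pderiv, coeff_pderiv]
  by_cases hik : i = k
  · subst hik; rfl
  · have e1 : m + Finsupp.single i 1 + Finsupp.single k 1 =
        m + Finsupp.single k 1 + Finsupp.single i 1 := add_right_comm _ _ _
    rw [e1]
    simp only [Finsupp.add_apply, Finsupp.single_apply, hik, Ne.symm hik, if_false, add_zero]
    ring

/- PLAN. `V = ⨆ i, W.map (pderiv i)` (finite supremum over `Fin n`; its dimension is at most
`∑ i, finrank (W.map _) ≤ n * s`; e.g. induction over a `Finset` of indices, or: `V` is the range of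
the linear map `(Fin n → W) → MvPolynomial`, `h ↦ ∑ i, pderiv i (h i)`, of dimension at most
`finrank (Fin n → W) = n * finrank W`).  Closed: `∑ i, a j i * pderiv i (pderiv k h) =
pderiv k (∑ i, a j i * pderiv i h) - ∑ i, pderiv k (a j i) * pderiv i h` (derivatives commute), and
`pderiv k (a j i)` is a constant `C c` because `(a j i).totalDegree ≤ 1`
(`coeff_pderiv`: all coefficients at `d ≠ 0` vanish). -/
theorem FrameLeaf.pderiv (ha : ∀ j i, (a j i).totalDegree ≤ 1) {s : ℕ}
    {g : MvPolynomial (Fin n) K} (hg : FrameLeaf a s g) (k : Fin n) :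
    FrameLeaf a (n * s) (MvPolynomial.pderiv k g) := by
  classical
  obtain ⟨W, hfd, hfr, hgW, hcl⟩ := hg
  let Φ : (Fin n → W) →ₗ[K] MvPolynomial (Fin n) K :=
    ∑ k : Fin n, ((MvPolynomial.pderiv k : Derivation K (MvPolynomial (Fin n) K)
      (MvPolynomial (Fin n) K)) : MvPolynomial (Fin n) K →ₗ[K] MvPolynomial (Fin n) K).comp
        (W.subtype.comp (LinearMap.proj k))
  have hΦ : ∀ h : Fin n → W, Φ h = ∑ k, MvPolynomial.pderiv k ((h k : W) : MvPolynomial (Fin n) K) := by
    intro h
    simp [Φ]
  have hmem : ∀ w ∈ W, ∀ k : Fin n, MvPolynomial.pderiv k w ∈ LinearMap.range Φ := by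
    intro w hw k
    refine ⟨Pi.single k ⟨w, hw⟩, ?_⟩
    rw [hΦ, Finset.sum_eq_single k]
    · rw [Pi.single_eq_same]
    · intro b _ hb
      rw [Pi.single_eq_of_ne hb]
      simp
    · intro h; exact absurd (Finset.mem_univ k) h
  refine ⟨LinearMap.range Φ, inferInstance, ?_, hmem g hgW k, ?_⟩
  · refine (LinearMap.finrank_range_le Φ).trans ?_
    rw [Module.finrank_pi_fintype]
    simp only [Finset.sum_const, Finset.card_univ, Fintype.card_fin, smul_eq_mul]
    exact Nat.mul_le_mul_left _ hfr
  · rintro v ⟨h, rfl⟩ j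
    rw [hΦ]
    have e1 : ∑ i, a j i * MvPolynomial.pderiv i
        (∑ k, MvPolynomial.pderiv k ((h k : W) : MvPolynomial (Fin n) K)) =
        ∑ k, (MvPolynomial.pderiv k (∑ i, a j i *
            MvPolynomial.pderiv i ((h k : W) : MvPolynomial (Fin n) K)) -
          ∑ i, MvPolynomial.pderiv k (a j i) *
            MvPolynomial.pderiv i ((h k : W) : MvPolynomial (Fin n) K)) := by
      simp only [map_sum, Finset.mul_sum, Derivation.leibniz, smul_eq_mul, Finset.sum_add_distrib]
      rw [Finset.sum_comm]
      refine Finset.sum_congr rfl fun k _ => ?_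
      have e2 : ∑ i, MvPolynomial.pderiv i ((h k : W) : MvPolynomial (Fin n) K) *
          MvPolynomial.pderiv k (a j i) = ∑ i, MvPolynomial.pderiv k (a j i) *
            MvPolynomial.pderiv i ((h k : W) : MvPolynomial (Fin n) K) :=
        Finset.sum_congr rfl fun i _ => mul_comm _ _
      rw [e2, add_sub_cancel_right]
      refine Finset.sum_congr rfl fun i _ => ?_
      rw [pderiv_comm' i k]
    rw [e1]
    refine Submodule.sum_mem _ fun k _ => Submodule.sub_mem _ ?_ ?_
    · exact hmem _ (hcl _ (h k).2 j) k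
    · refine Submodule.sum_mem _ fun i _ => ?_
      obtain ⟨c, hc⟩ := pderiv_const_of_deg (ha j i) k
      rw [hc, ← smul_eq_C_mul]
      exact Submodule.smul_mem _ _ (hmem _ (h k).2 i)

/- PLAN. Induction over `L`. -/
theorem FrameLeaf.pd (ha : ∀ j i, (a j i).totalDegree ≤ 1) {s : ℕ}
    {g : MvPolynomial (Fin n) K} (hg : FrameLeaf a s g) :
    ∀ L : List (Fin n), FrameLeaf a (n ^ L.length * s) (pd L g) := by
  intro L
  induction L with
  | nil => simpa using hg
  | cons v L ih =>
    rw [pd_cons, List.length_cons, pow_succ']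
    have h := FrameLeaf.pderiv ha ih v
    rwa [← mul_assoc] at h

end Pool.Agent.ORG
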