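import Pool.Agent.ORG.ImmF

/-!
# ORG: the frame of matrix products is a frame
-/

set_option autoImplicit false

namespace Pool.Agent.ORG

open MvPolynomial

variable {K : Type*} [Field K] {n T w r : ℕ}

private theorem immI_degree (e : Fin n ≃ (Fin T × Fin w × Fin w) ⊕ Fin r) (cut : Finset (Fin T))
    (B : Finset (Fin r)) (j i : Fin n) : (immFrame K e cut B j i).totalDegree ≤ 1 := by
  classical
  have hX : ∀ v : Fin n, (X v : MvPolynomial (Fin n) K).totalDegree ≤ 1 := fun v =>
    (totalDegree_X v).le
  have h0 : (0 : MvPolynomial (Fin n) K).totalDegree ≤ 1 := by simp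
  have h1 : (1 : MvPolynomial (Fin n) K).totalDegree ≤ 1 := by simp
  unfold immFrame
  rw [Matrix.of_apply]
  rcases hj : e j with ⟨l, a, b⟩ | p <;> rcases hi : e i with ⟨l', a', b'⟩ | p'
  · simp only
    refine (totalDegree_sub _ _).trans (max_le ?_ ?_)
    · split_ifs
      · exact hX _
      · exact h0
    · split_ifs
      · exact hX _
      · exact h0
  · simp only
    exact h0
  · simp only
    exact h0
  · simp only
    split_ifs
    · exact h1
    · exact hX _
    · exact h0

private theorem immI_det_ne_zero (e : Fin n ≃ (Fin T × Fin w × Fin w) ⊕ Fin r) (l : Fin T) :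
    (Mt K e l).det ≠ 0 := by
  classical
  intro h
  let β : Fin n → K := fun i =>
    Sum.elim (fun t : Fin T × Fin w × Fin w => if t.2.1 = t.2.2 then (1 : K) else 0)
      (fun _ => 0) (e i)
  have h1 : (eval β) (Mt K e l).det = 1 := by
    rw [RingHom.map_det]
    have h2 : (eval β).mapMatrix (Mt K e l) = 1 := by
      ext a b
      simp only [Mt, RingHom.mapMatrix_apply, Matrix.map_apply, Matrix.of_apply, eval_X, β,
        Equiv.apply_symm_apply, Sum.elim_inl, Matrix.one_apply]
    rw [h2, Matrix.det_one]
  rw [h, map_zero] at h1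
  exact zero_ne_one h1

private theorem immI_one_sum (j : Fin n) (h : MvPolynomial (Fin n) K) :
    ∑ i, (1 : Matrix (Fin n) (Fin n) (MvPolynomial (Fin n) K)) j i * pderiv i h = pderiv j h := by
  classical
  rw [Finset.sum_eq_single j]
  · rw [Matrix.one_apply_eq, one_mul]
  · intro b _ hb
    rw [Matrix.one_apply_ne (Ne.symm hb), zero_mul]
  · intro hj
    exact absurd (Finset.mem_univ j) hj

private theorem immI_leaf_X {s : ℕ} (hs2 : 2 ≤ s) (v : Fin n) :
    FrameLeaf 1 s (X v : MvPolynomial (Fin n) K) := by
  classical
  have hfin : (({1, X v} : Set (MvPolynomial (Fin n) K))).Finite := by simp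
  refine ⟨Submodule.span K {1, X v}, FiniteDimensional.span_of_finite K hfin, ?_,
    Submodule.subset_span (by simp), ?_⟩
  · have h1 := finrank_span_finset_le_card (R := K) ({1, X v} : Finset (MvPolynomial (Fin n) K))
    have h2 : (({1, X v} : Finset (MvPolynomial (Fin n) K)) : Set (MvPolynomial (Fin n) K)) =
        {1, X v} := by simp
    rw [Set.finrank, h2] at h1
    exact (h1.trans Finset.card_le_two).trans hs2
  · intro h hh j
    rw [immI_one_sum]
    obtain ⟨a, b, rfl⟩ := Submodule.mem_span_pair.1 hh
    have h1 : pderiv j (a • (1 : MvPolynomial (Fin n) K) + b • X v) =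
        (if v = j then b else 0) • (1 : MvPolynomial (Fin n) K) := by
      rw [map_add, Derivation.map_smul, Derivation.map_smul, pderiv_one, smul_zero, zero_add]
      by_cases hvj : v = j
      · subst hvj
        rw [pderiv_X_self, if_pos rfl]
      · rw [pderiv_X_of_ne hvj, if_neg hvj, smul_zero, zero_smul]
    rw [h1]
    exact Submodule.smul_mem _ _ (Submodule.subset_span (by simp))

/- PLAN. The entries are `0`, `1`, variables or differences of variables.  The polynomials `q`: the
`T` determinants `(Mt K e l).det` (not zero: evaluate at the identity matrices, or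
`Matrix.det_mvPolynomialX_ne_zero`; `frameLeaf_det`, `pderiv v (X _)` is `1` or `0`) and the `r`
variables `X (e.symm (inr p))` (dimension `2`: span of `1` and the variable); index type
`Fin (T + r)` (`Fin.append`, `Fin.addCases`). `det_immFrame_ne_zero`. -/
theorem isFrame_immFrame (e : Fin n ≃ (Fin T × Fin w × Fin w) ⊕ Fin r) (cut : Finset (Fin T))
    (B : Finset (Fin r)) {s : ℕ} (hs : 4 ^ w ≤ s) (hs2 : 2 ≤ s) : IsFrame (immFrame K e cut B) s := by
  classical
  refine ⟨immI_degree e cut B, T + r,
    Fin.append (fun l => (Mt K e l).det) (fun p => X (e.symm (Sum.inr p))), ?_, ?_, ?_⟩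
  · intro l
    refine Fin.addCases (fun l => ?_) (fun p => ?_) l
    · rw [Fin.append_left]
      exact immI_det_ne_zero e l
    · rw [Fin.append_right]
      exact X_ne_zero _
  · intro l
    refine Fin.addCases (fun l => ?_) (fun p => ?_) l
    · rw [Fin.append_left]
      have hM : ∀ (i j : Fin w) (v : Fin n), ∃ c : K, pderiv v (Mt K e l i j) = C c := by
        intro i j v
        have h1 : Mt K e l i j = X (e.symm (Sum.inl (l, i, j))) := rfl
        rw [h1]
        by_cases hv : e.symm (Sum.inl (l, i, j)) = v
        · refine ⟨1, ?_⟩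
          rw [hv, pderiv_X_self, C_1]
        · refine ⟨0, ?_⟩
          rw [pderiv_X_of_ne hv, C_0]
      obtain ⟨W, hfd, hfr, hg, hcl⟩ := frameLeaf_det (Mt K e l) hM
      exact ⟨W, hfd, hfr.trans hs, hg, hcl⟩
    · rw [Fin.append_right]
      exact immI_leaf_X hs2 _
  · intro β hβ
    refine det_immFrame_ne_zero e cut B β (fun l => ?_) (fun p _ => ?_)
    · have := hβ (Fin.castAdd r l)
      rwa [Fin.append_left] at this
    · have := hβ (Fin.natAdd T p)
      rwa [Fin.append_right, eval_X] at this

end Pool.Agent.ORG
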