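import Pool.Agent.ORG.Defs

/-!
# ORG: leaves in the other variables
-/

set_option autoImplicit false

namespace Pool.Agent.ORG

open MvPolynomial

variable {K : Type*} [Field K] {n T w r : ℕ}

/- PLAN. Unfold `immFrame`: for `e j = inl _` all terms vanish on `W` (by `h0` or because the entry is
`0`), for `j = e.symm (inr p)` the sum is `∂_j h` (`p ∈ B`) or `X_j ∂_j h`; use
`Equiv.sum_comp e.symm`, `Fintype.sum_sum_type`. -/
theorem frameLeaf_other (e : Fin n ≃ (Fin T × Fin w × Fin w) ⊕ Fin r) (cut : Finset (Fin T))
    (B : Finset (Fin r)) {s : ℕ} (W : Submodule K (MvPolynomial (Fin n) K))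
    (hfd : FiniteDimensional K W) (hs : Module.finrank K W ≤ s)
    (h0 : ∀ h ∈ W, ∀ t, pderiv (e.symm (Sum.inl t)) h = 0)
    (hB : ∀ h ∈ W, ∀ p ∈ B, pderiv (e.symm (Sum.inr p)) h ∈ W)
    (hX : ∀ h ∈ W, ∀ p, p ∉ B → X (e.symm (Sum.inr p)) * pderiv (e.symm (Sum.inr p)) h ∈ W)
    (g : MvPolynomial (Fin n) K) (hg : g ∈ W) : FrameLeaf (immFrame K e cut B) s g := by
  classical
  refine ⟨W, hfd, hs, hg, fun h hh j => ?_⟩
  rcases hj : e j with ⟨l, a, b⟩ | p
  · rw [Finset.sum_eq_zero]
    · exact W.zero_mem
    · intro i _
      rcases hi : e i with t | p'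
      · have h1 : i = e.symm (Sum.inl t) := by rw [← hi, e.symm_apply_apply]
        rw [h1, h0 h hh t, mul_zero]
      · have h2 : immFrame K e cut B j i = 0 := by
          simp only [immFrame, Matrix.of_apply, hj, hi]
        rw [h2, zero_mul]
  · have hj' : j = e.symm (Sum.inr p) := by rw [← hj, e.symm_apply_apply]
    rw [Finset.sum_eq_single j]
    · have h2 : immFrame K e cut B j j = if p ∈ B then 1 else X (e.symm (Sum.inr p)) := by
        simp only [immFrame, Matrix.of_apply, hj, if_true]
      rw [h2]
      split_ifs with hp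
      · rw [one_mul, hj']
        exact hB h hh p hp
      · have h3 := hX h hh p hp
        rw [← hj'] at h3 ⊢
        exact h3
    · intro i _ hij
      rcases hi : e i with t | p'
      · have h2 : immFrame K e cut B j i = 0 := by
          obtain ⟨l', a', b'⟩ := t
          simp only [immFrame, Matrix.of_apply, hj, hi]
        rw [h2, zero_mul]
      · have hpp : p ≠ p' := by
          intro h
          apply hij
          apply e.injective
          rw [hi, hj, h]
        have h2 : immFrame K e cut B j i = 0 := by
          simp only [immFrame, Matrix.of_apply, hj, hi, if_neg hpp]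
        rw [h2, zero_mul]
    · intro h
      exact absurd (Finset.mem_univ _) h

/- PLAN. `W = span` of the monomials in the support (`X j * pderiv j (monomial m c) =
(m j) • monomial m c`, `ORB/LeafA.lean`, `mixedLeaf_of_support`), `frameLeaf_other`. -/
theorem frameLeaf_sparse (e : Fin n ≃ (Fin T × Fin w × Fin w) ⊕ Fin r) (cut : Finset (Fin T))
    {s : ℕ} (g : MvPolynomial (Fin n) K) (hs : g.support.card ≤ s)
    (hv : ∀ t, e.symm (Sum.inl t) ∉ g.vars) : FrameLeaf (immFrame K e cut ∅) s g := by
  classical
  set T' : Finset (MvPolynomial (Fin n) K) := g.support.image fun m => monomial m (1 : K) with hT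
  refine frameLeaf_other e cut ∅ (Submodule.span K (T' : Set (MvPolynomial (Fin n) K)))
    inferInstance (((finrank_span_finset_le_card T').trans Finset.card_image_le).trans hs)
    ?_ ?_ ?_ g ?_
  · intro h hh t
    induction hh using Submodule.span_induction with
    | mem x hx =>
      obtain ⟨m, hm, rfl⟩ := Finset.mem_image.mp (Finset.mem_coe.mp hx)
      have h1 : m (e.symm (Sum.inl t)) = 0 := by
        by_contra hne
        exact hv t ((mem_vars_iff_mem_support _).2 ⟨m, hm, Finsupp.mem_support_iff.2 hne⟩)
      rw [pderiv_monomial, h1]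
      simp
    | zero => rw [map_zero]
    | add x y _ _ hx hy => rw [map_add, hx, hy, add_zero]
    | smul a x _ hx => rw [Derivation.map_smul, hx, smul_zero]
  · intro h _ p hp
    exact absurd hp (Finset.notMem_empty p)
  · intro h hh p _
    generalize e.symm (Sum.inr p) = j
    induction hh using Submodule.span_induction with
    | mem x hx =>
      obtain ⟨m, hm, rfl⟩ := Finset.mem_image.mp (Finset.mem_coe.mp hx)
      have h1 : X j * MvPolynomial.pderiv j (monomial m (1 : K)) =
          (m j : K) • monomial m (1 : K) := by
        rw [X_mul_pderiv_monomial, smul_monomial, smul_monomial]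
        simp [nsmul_eq_mul]
      rw [h1]
      exact Submodule.smul_mem _ _ (Submodule.subset_span (Finset.mem_coe.mpr
        (Finset.mem_image_of_mem _ hm)))
    | zero => rw [map_zero, mul_zero]; exact Submodule.zero_mem _
    | add x y _ _ hx hy => rw [map_add, mul_add]; exact Submodule.add_mem _ hx hy
    | smul a x _ hx =>
      rw [Derivation.map_smul, mul_smul_comm]
      exact Submodule.smul_mem _ _ hx
  · rw [g.as_sum]
    refine Submodule.sum_mem _ fun m hm => ?_
    have h1 : monomial m (coeff m g) = coeff m g • monomial m (1 : K) := by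
      rw [smul_monomial, smul_eq_mul, mul_one]
    rw [h1]
    refine Submodule.smul_mem _ _ (Submodule.subset_span ?_)
    exact Finset.mem_coe.mpr (Finset.mem_image_of_mem _ hm)

end Pool.Agent.ORG
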