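import Pool.Agent.ORG.Defs

/-!
# ORG: entries of products of matrices of variables are leaves
-/

set_option autoImplicit false

namespace Pool.Agent.ORG

open MvPolynomial

variable {K : Type*} [Field K] {n T w r : ℕ}

/-- the derivation `∑ i, a_ji ∂/∂y_i` -/
private noncomputable def dv (a : Matrix (Fin n) (Fin n) (MvPolynomial (Fin n) K)) (j : Fin n) :
    Derivation K (MvPolynomial (Fin n) K) (MvPolynomial (Fin n) K) :=
  mkDerivation K (fun i => a j i)

private theorem dv_apply (a : Matrix (Fin n) (Fin n) (MvPolynomial (Fin n) K)) (j : Fin n)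
    (h : MvPolynomial (Fin n) K) : ∑ i, a j i * pderiv i h = dv a j h := by
  have hs : ∀ g : MvPolynomial (Fin n) K,
      (∑ i, a j i • (pderiv i : Derivation K (MvPolynomial (Fin n) K) _)) g =
        ∑ i, a j i * pderiv i g := by
    intro g
    have h2 := congrFun (map_sum (Derivation.coeFnAddMonoidHom (R := K)
      (A := MvPolynomial (Fin n) K) (M := MvPolynomial (Fin n) K))
      (fun i => a j i • (pderiv i : Derivation K (MvPolynomial (Fin n) K) _)) Finset.univ) g
    rw [Finset.sum_apply] at h2
    exact h2
  have h1 : (∑ i, a j i • (pderiv i : Derivation K (MvPolynomial (Fin n) K) _)) = dv a j := by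
    apply MvPolynomial.derivation_ext
    intro i
    rw [hs, dv, mkDerivation_X, Finset.sum_eq_single i]
    · rw [pderiv_X_self, mul_one]
    · intro l _ hl
      rw [pderiv_X_of_ne (Ne.symm hl), mul_zero]
    · intro hi
      exact absurd (Finset.mem_univ i) hi
  rw [← h1, hs]

private theorem dv_mul (a : Matrix (Fin n) (Fin n) (MvPolynomial (Fin n) K)) (j : Fin n)
    (P Q : Matrix (Fin w) (Fin w) (MvPolynomial (Fin n) K)) :
    (P * Q).map (dv a j) = P.map (dv a j) * Q + P * Q.map (dv a j) := by
  ext1 x y
  rw [Matrix.map_apply, Matrix.mul_apply, map_sum, Matrix.add_apply, Matrix.mul_apply,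
    Matrix.mul_apply, ← Finset.sum_add_distrib]
  refine Finset.sum_congr rfl fun z _ => ?_
  rw [Derivation.leibniz, smul_eq_mul, smul_eq_mul, Matrix.map_apply, Matrix.map_apply]
  ring

private theorem dv_Mt (e : Fin n ≃ (Fin T × Fin w × Fin w) ⊕ Fin r) (cut : Finset (Fin T))
    (B : Finset (Fin r)) {j : Fin n} {l : Fin T} {a b : Fin w} (hj : e j = Sum.inl (l, a, b))
    (l' : Fin T) :
    (Mt K e l').map (dv (immFrame K e cut B) j) =
      (if l' = l then Matrix.single a b 1 * Mt K e l' else 0) -
        (if (l' : ℕ) + 1 = l ∧ l ∉ cut then Mt K e l' * Matrix.single a b 1 else 0) := by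
  ext1 x y
  have h1 : dv (immFrame K e cut B) j (X (e.symm (Sum.inl (l', x, y)))) =
      (if l' = l ∧ x = a then X (e.symm (Sum.inl (l, b, y))) else 0) -
          (if (l' : ℕ) + 1 = l ∧ l ∉ cut ∧ y = b then X (e.symm (Sum.inl (l', x, a))) else 0) := by
    rw [dv, mkDerivation_X, immFrame, Matrix.of_apply, hj, Equiv.apply_symm_apply]
  rw [Matrix.map_apply, Mt, Matrix.of_apply, h1, Matrix.sub_apply]
  congr 1
  · by_cases h : l' = l
    · subst h
      rw [if_pos rfl, Matrix.mul_apply, Finset.sum_eq_single b]
      · rw [Matrix.single_apply, Matrix.of_apply]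
        by_cases hx : x = a
        · rw [if_pos ⟨rfl, hx⟩, if_pos ⟨hx.symm, rfl⟩, one_mul]
        · rw [if_neg (fun h => hx h.2), if_neg (fun h => hx h.1.symm), zero_mul]
      · intro z _ hz
        rw [Matrix.single_apply, if_neg (fun h => hz h.2.symm), zero_mul]
      · intro hb
        exact absurd (Finset.mem_univ b) hb
    · rw [if_neg (fun h' => h h'.1), if_neg h, Matrix.zero_apply]
  · by_cases h : (l' : ℕ) + 1 = l ∧ l ∉ cut
    · rw [if_pos h, Matrix.mul_apply, Finset.sum_eq_single a]
      · rw [Matrix.single_apply, Matrix.of_apply]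
        by_cases hy : y = b
        · rw [if_pos ⟨h.1, h.2, hy⟩, if_pos ⟨rfl, hy.symm⟩, mul_one]
        · rw [if_neg (fun h => hy h.2.2), if_neg (fun h => hy h.2.symm), mul_zero]
      · intro z _ hz
        rw [Matrix.single_apply, if_neg (fun h => hz h.1.symm), mul_zero]
      · intro hb
        exact absurd (Finset.mem_univ a) hb
    · rw [if_neg (fun h' => h ⟨h'.1, h'.2.1⟩), if_neg h, Matrix.zero_apply]

private theorem dv_seg (e : Fin n ≃ (Fin T × Fin w × Fin w) ⊕ Fin r) (cut : Finset (Fin T))
    (B : Finset (Fin r)) {j : Fin n} {l : Fin T} {a b : Fin w} (hj : e j = Sum.inl (l, a, b))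
    (p : ℕ) : ∀ d : ℕ, p + (d + 1) ≤ T →
      (∀ l : Fin T, p < l → l < p + (d + 1) → l ∉ cut) →
    (seg K e p (d + 1)).map (dv (immFrame K e cut B) j) =
      (if (l : ℕ) = p then Matrix.single a b 1 * seg K e p (d + 1) else 0) -
        (if (l : ℕ) = p + (d + 1) ∧ l ∉ cut then
          seg K e p (d + 1) * Matrix.single a b 1 else 0) := by
  intro d
  induction d with
  | zero =>
    intro hd hcut
    have hp : p + 0 < T := by omega
    have h1 : seg K e p (0 + 1) = Mt K e ⟨p + 0, hp⟩ := by
      show (1 : Matrix (Fin w) (Fin w) (MvPolynomial (Fin n) K)) *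
        (if h : p + 0 < T then Mt K e ⟨p + 0, h⟩ else 1) = _
      rw [dif_pos hp, one_mul]
    rw [h1, dv_Mt e cut B hj]
    congr 1
    · by_cases h : (l : ℕ) = p
      · rw [if_pos h, if_pos (Fin.ext (by simpa using h.symm))]
      · rw [if_neg h, if_neg (fun h' => h (by rw [← h']; simp))]
    · by_cases h : (l : ℕ) = p + (0 + 1) ∧ l ∉ cut
      · rw [if_pos h, if_pos ⟨by rw [h.1]; simp, h.2⟩]
      · rw [if_neg h, if_neg (fun h' => h ⟨by rw [← h'.1]; simp, h'.2⟩)]
  | succ d ih =>
    intro hd hcut
    have ih := ih (by omega) (fun l h1 h2 => hcut l h1 (by omega))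
    have hp : p + (d + 1) < T := by omega
    have h1 : seg K e p (d + 1 + 1) = seg K e p (d + 1) * Mt K e ⟨p + (d + 1), hp⟩ := by
      show seg K e p (d + 1) *
        (if h : p + (d + 1) < T then Mt K e ⟨p + (d + 1), h⟩ else 1) = _
      rw [dif_pos hp]
    rw [h1, dv_mul, ih, dv_Mt e cut B hj]
    have e1 : ((⟨p + (d + 1), hp⟩ : Fin T) = l) = ((l : ℕ) = p + (d + 1)) := by
      rw [Fin.ext_iff]
      exact propext ⟨fun h => h.symm, fun h => h.symm⟩
    have e2 : (((⟨p + (d + 1), hp⟩ : Fin T) : ℕ) + 1 = l) = ((l : ℕ) = p + (d + 1 + 1)) := by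
      exact propext ⟨fun h => by simp at h; omega, fun h => by simp; omega⟩
    simp only [e1, e2]
    by_cases hl : (l : ℕ) = p + (d + 1)
    · have hc : l ∉ cut := hcut l (by omega) (by omega)
      have f1 : ¬ ((l : ℕ) = p) := by omega
      have f2 : ¬ ((l : ℕ) = p + (d + 1 + 1) ∧ l ∉ cut) := fun h => by
        have := h.1
        omega
      have f3 : (l : ℕ) = p + (d + 1) ∧ l ∉ cut := ⟨hl, hc⟩
      simp only [if_neg f1, if_neg f2, if_pos f3, if_pos hl, zero_sub, sub_zero, Matrix.neg_mul,
        Matrix.mul_assoc]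
      rw [neg_add_cancel]
    · have f3 : ¬ ((l : ℕ) = p + (d + 1) ∧ l ∉ cut) := fun h => hl h.1
      simp only [if_neg f3, if_neg hl]
      by_cases hn : (l : ℕ) = p
      · have f2 : ¬ ((l : ℕ) = p + (d + 1 + 1) ∧ l ∉ cut) := fun h => by
          have := h.1
          omega
        simp only [if_pos hn, if_neg f2, sub_zero, Matrix.mul_zero, add_zero, Matrix.mul_assoc]
      · simp only [if_neg hn, sub_zero, zero_sub, Matrix.zero_mul, zero_add]
        split_ifs
        · rw [Matrix.mul_neg, Matrix.mul_assoc]
        · rw [neg_zero, Matrix.mul_zero]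

private theorem dv_seg_inr (e : Fin n ≃ (Fin T × Fin w × Fin w) ⊕ Fin r) (cut : Finset (Fin T))
    (B : Finset (Fin r)) {j : Fin n} {q : Fin r} (hj : e j = Sum.inr q)
    (p : ℕ) : ∀ d : ℕ, (seg K e p d).map (dv (immFrame K e cut B) j) = 0 := by
  intro d
  induction d with
  | zero =>
    ext1 x y
    rw [Matrix.map_apply, seg, Matrix.one_apply, Matrix.zero_apply]
    split_ifs
    · exact Derivation.map_one_eq_zero _
    · exact map_zero _
  | succ d ih =>
    rw [seg, dv_mul, ih, Matrix.zero_mul, zero_add]
    by_cases h : p + d < T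
    · rw [dif_pos h]
      have h1 : (Mt K e ⟨p + d, h⟩).map (dv (immFrame K e cut B) j) = 0 := by
        ext1 x y
        rw [Matrix.map_apply, Mt, Matrix.of_apply, dv, mkDerivation_X, immFrame, Matrix.of_apply,
          hj, Equiv.apply_symm_apply, Matrix.zero_apply]
      rw [h1, Matrix.mul_zero]
    · rw [dif_neg h]
      have h1 : (1 : Matrix (Fin w) (Fin w) (MvPolynomial (Fin n) K)).map
          (dv (immFrame K e cut B) j) = 0 := by
        ext1 x y
        rw [Matrix.map_apply, Matrix.one_apply, Matrix.zero_apply]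
        split_ifs
        · exact Derivation.map_one_eq_zero _
        · exact map_zero _
      rw [h1, Matrix.mul_zero]

/-- The entries of `M_p ... M_{p+d-1}` (no cut inside) span a space closed under the frame. -/
theorem frameLeaf_seg (e : Fin n ≃ (Fin T × Fin w × Fin w) ⊕ Fin r) (cut : Finset (Fin T))
    (B : Finset (Fin r)) {s p d : ℕ} (hs : w * w ≤ s) (hs1 : 1 ≤ s) (hd : p + d ≤ T)
    (hcut : ∀ l : Fin T, p < l → l < p + d → l ∉ cut) (x y : Fin w) :
    FrameLeaf (immFrame K e cut B) s (seg K e p d x y) := by
  have _ := hs1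
  obtain ⟨F, hF⟩ : ∃ F : Fin w × Fin w → MvPolynomial (Fin n) K,
    F = fun z => seg K e p d z.1 z.2 := ⟨_, rfl⟩
  have hmem : ∀ x y, seg K e p d x y ∈ Submodule.span K (Set.range F) := fun x y =>
    Submodule.subset_span ⟨(x, y), by rw [hF]⟩
  have hkey : ∀ j x y, dv (immFrame K e cut B) j (seg K e p d x y) ∈
      Submodule.span K (Set.range F) := by
    intro j x y
    rcases hj : e j with ⟨l, a, b⟩ | q
    · cases d with
      | zero =>
        rw [seg, Matrix.one_apply]
        split_ifs
        · rw [Derivation.map_one_eq_zero]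
          exact Submodule.zero_mem _
        · rw [map_zero]
          exact Submodule.zero_mem _
      | succ d =>
        have h1 := congrArg (fun P : Matrix (Fin w) (Fin w) (MvPolynomial (Fin n) K) => P x y)
          (dv_seg (K := K) e cut B hj p d hd hcut)
        simp only [Matrix.map_apply, Matrix.sub_apply] at h1
        rw [h1]
        refine Submodule.sub_mem _ ?_ ?_
        · split_ifs
          · rw [Matrix.mul_apply]
            refine Submodule.sum_mem _ fun z _ => ?_
            rw [Matrix.single_apply]
            split_ifs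
            · rw [one_mul]
              exact hmem z y
            · rw [zero_mul]
              exact Submodule.zero_mem _
          · exact Submodule.zero_mem _
        · split_ifs
          · rw [Matrix.mul_apply]
            refine Submodule.sum_mem _ fun z _ => ?_
            rw [Matrix.single_apply]
            split_ifs
            · rw [mul_one]
              exact hmem x z
            · rw [mul_zero]
              exact Submodule.zero_mem _
          · exact Submodule.zero_mem _
    · have h1 := congrArg (fun P : Matrix (Fin w) (Fin w) (MvPolynomial (Fin n) K) => P x y)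
          (dv_seg_inr (K := K) e cut B hj p d)
      simp only [Matrix.map_apply, Matrix.zero_apply] at h1
      rw [h1]
      exact Submodule.zero_mem _
  refine ⟨Submodule.span K (Set.range F), FiniteDimensional.span_of_finite K (Set.finite_range F),
    ?_, hmem x y, ?_⟩
  · refine (finrank_range_le_card F).trans ?_
    rw [Fintype.card_prod, Fintype.card_fin]
    exact hs
  · intro h hh j
    rw [dv_apply]
    refine Submodule.span_induction (p := fun h _ => dv (immFrame K e cut B) j h ∈
      Submodule.span K (Set.range F)) ?_ ?_ ?_ ?_ hh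
    · rintro _ ⟨z, rfl⟩
      have h2 : F z = seg K e p d z.1 z.2 := by rw [hF]
      rw [h2]
      exact hkey j z.1 z.2
    · rw [map_zero]
      exact Submodule.zero_mem _
    · intro u v _ _ hu hv
      rw [map_add]
      exact Submodule.add_mem _ hu hv
    · intro c u _ hu
      rw [Derivation.map_smul]
      exact Submodule.smul_mem _ _ hu

end Pool.Agent.ORG
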