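import Pool.Agent.ORG.Defs
import Pool.Agent.ORB.CurveB

/-!
# ORG: invertible affine substitutions, a good base point
-/

set_option autoImplicit false

namespace Pool.Agent.ORG

open MvPolynomial Pool.Agent.ORB

variable {K : Type*} [Field K] {n : ℕ}

/- PLAN. The private lemma `bs_chain` of `Pool.Agent.ORB.Base` (there `b = 0`), same proof. -/
theorem pderiv_aff (A : Matrix (Fin n) (Fin n) K) (b : Fin n → K) (i : Fin n)
    (h : MvPolynomial (Fin n) K) :
    pderiv i (aff A b h) = ∑ j, C (A j i) * aff A b (pderiv j h) := by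
  classical
  have hX : ∀ k, aff A b (X k) = C (b k) + ∑ i, C (A k i) * X i := by
    intro k
    unfold aff
    rw [aeval_X]
  have hd : ∀ k, pderiv i (aff A b (X k)) = C (A k i) := by
    intro k
    rw [hX, map_add, pderiv_C, zero_add, map_sum, Finset.sum_eq_single i]
    · rw [pderiv_C_mul, pderiv_X_self, mul_one]
    · intro b _ hb
      rw [pderiv_C_mul, pderiv_X_of_ne hb, mul_zero]
    · intro h
      exact absurd (Finset.mem_univ i) h
  induction h using MvPolynomial.induction_on with
  | C a =>
    simp only [pderiv_C, map_zero, mul_zero, Finset.sum_const_zero]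
    rw [algHom_C, algebraMap_eq, pderiv_C]
  | add p q hp hq =>
    simp only [map_add, hp, hq, mul_add, Finset.sum_add_distrib]
  | mul_X p k hp =>
    rw [map_mul, pderiv_mul, hp, hd]
    have h1 : ∀ j, C (A j i) * aff A b (pderiv j (p * X k)) =
        C (A j i) * aff A b (pderiv j p) * aff A b (X k) +
          (if j = k then aff A b p * C (A k i) else 0) := by
      intro j
      rw [pderiv_mul, map_add, map_mul, map_mul]
      by_cases hjk : j = k
      · subst hjk
        rw [if_pos rfl, pderiv_X_self, map_one]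
        ring
      · rw [if_neg hjk, pderiv_X_of_ne (Ne.symm hjk), map_zero]
        ring
    simp only [h1]
    rw [Finset.sum_add_distrib, Finset.sum_ite_eq' Finset.univ k, if_pos (Finset.mem_univ k),
      Finset.sum_mul]

/- PLAN. The private lemma `bs_inj` of `Pool.Agent.ORB.Base` (there `b = 0`); left inverse
`aff A⁻¹ (- A⁻¹ *ᵥ b)`: `x = A⁻¹ (y - b)`. -/
theorem aff_injective (A : Matrix (Fin n) (Fin n) K) (hA : A.det ≠ 0) (b : Fin n → K) :
    Function.Injective (aff A b) := by
  have hX : ∀ (A : Matrix (Fin n) (Fin n) K) (b : Fin n → K) (k : Fin n),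
      aff A b (X k) = C (b k) + ∑ i, C (A k i) * X i := by
    intro A b k
    unfold aff
    rw [aeval_X]
  have h : (aff A⁻¹ (fun i => -(A⁻¹.mulVec b) i)).comp (aff A b) = AlgHom.id K _ := by
    apply MvPolynomial.algHom_ext
    intro j
    rw [AlgHom.comp_apply, AlgHom.id_apply, hX, map_add, map_sum]
    simp only [map_mul, algHom_C, algebraMap_eq, hX, mul_add, Finset.sum_add_distrib,
      Finset.mul_sum]
    have h0 : ∑ i, C (A j i) * C (-(A⁻¹.mulVec b) i) = (C (-(b j)) : MvPolynomial (Fin n) K) := by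
      simp only [← C_mul]
      rw [← map_sum]
      congr 1
      have h1 : A.mulVec (A⁻¹.mulVec b) = b := by
        rw [Matrix.mulVec_mulVec, Matrix.mul_nonsing_inv A (isUnit_iff_ne_zero.2 hA),
          Matrix.one_mulVec]
      have h2 := congrFun h1 j
      rw [Matrix.mulVec, dotProduct] at h2
      rw [← h2, ← Finset.sum_neg_distrib]
      refine Finset.sum_congr rfl fun i _ => ?_
      rw [mul_neg]
    rw [h0, ← add_assoc, ← C_add, add_neg_cancel, C_0, zero_add, Finset.sum_comm]
    have h2 : ∀ k : Fin n, ∑ i, C (A j i) * (C (A⁻¹ i k) * X k) =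
        C ((A * A⁻¹) j k) * (X k : MvPolynomial (Fin n) K) := by
      intro k
      rw [Matrix.mul_apply, map_sum, Finset.sum_mul]
      refine Finset.sum_congr rfl fun i _ => ?_
      rw [map_mul, mul_assoc]
    simp only [h2]
    rw [Matrix.mul_nonsing_inv A (isUnit_iff_ne_zero.2 hA), Finset.sum_eq_single j]
    · rw [Matrix.one_apply_eq, C_1, one_mul]
    · intro k _ hk
      rw [Matrix.one_apply_ne (Ne.symm hk), C_0, zero_mul]
    · intro h
      exact absurd (Finset.mem_univ j) h
  intro x y hxy
  have h1 := congrArg (fun g : MvPolynomial (Fin n) K →ₐ[K] MvPolynomial (Fin n) K => g x) h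
  have h2 := congrArg (fun g : MvPolynomial (Fin n) K →ₐ[K] MvPolynomial (Fin n) K => g y) h
  simp only [AlgHom.comp_apply, AlgHom.id_apply] at h1 h2
  rw [← h1, ← h2, hxy]

variable [CharZero K]

/- PLAN. `G = aff A b (q l)` is not zero (`aff_injective`) and is in `V.map (aff A b)` (`V` the space of
`FrameLeaf 1 s (q l)`; `∑ i, (1 : Matrix _ _ _) j i * pderiv i h = pderiv j h`), closed under
derivatives by `pderiv_aff`, dimension `≤ s`; so `aeval cv G ≠ 0` in `K[u]` (`curve_ne_zero`, `D = s`).
The product over `l` is a nonzero polynomial, it is nonzero at some `u : K`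
(`Polynomial.funext`/infinite field, as in `ORB.exists_base`);
`(aeval cv (aff A b q)).eval u = eval (fun j => b j + (gpA A M j).eval u) q`. -/
theorem exists_base (A : Matrix (Fin n) (Fin n) K) (hA : A.det ≠ 0) (b : Fin n → K) (s M : ℕ)
    (hM : n * s ^ 2 ≤ M) {m : ℕ} (q : Fin m → MvPolynomial (Fin n) K) (hq0 : ∀ l, q l ≠ 0)
    (hq : ∀ l, FrameLeaf 1 s (q l)) :
    ∃ u : K, ∀ l, eval (fun j => b j + (gpA A M j).eval u) (q l) ≠ 0 := by
  classical
  have h1 : ∀ l, aeval (fun i : Fin n => cv K M (i + 1)) (aff A b (q l)) ≠ 0 := by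
    intro l
    obtain ⟨W, hWf, hWs, hqW, hW⟩ := hq l
    refine curve_ne_zero n s M hM _ ?_ (W.map (aff A b).toLinearMap) ?_ ?_ ?_ ?_
    · intro h0
      exact hq0 l (aff_injective A hA b (by rw [h0, map_zero]))
    · rintro _ ⟨h, hh, rfl⟩ i
      show pderiv i (aff A b h) ∈ _
      rw [pderiv_aff]
      refine Submodule.sum_mem _ fun j _ => ?_
      rw [← smul_eq_C_mul]
      refine Submodule.smul_mem _ _ ⟨_, ?_, rfl⟩
      have h3 := hW h hh j
      rw [Finset.sum_eq_single j] at h3
      · rwa [Matrix.one_apply_eq, one_mul] at h3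
      · intro k _ hk
        rw [Matrix.one_apply_ne (Ne.symm hk), zero_mul]
      · intro h
        exact absurd (Finset.mem_univ j) h
    · infer_instance
    · exact (Submodule.finrank_map_le _ _).trans hWs
    · exact ⟨_, hqW, rfl⟩
  have h2 : (∏ l, aeval (fun i : Fin n => cv K M (i + 1)) (aff A b (q l))) ≠ 0 :=
    Finset.prod_ne_zero_iff.2 fun l _ => h1 l
  have h3 : ∃ u : K, (∏ l, aeval (fun i : Fin n => cv K M (i + 1)) (aff A b (q l))).eval u ≠ 0 := by
    by_contra hcon
    push Not at hcon
    exact h2 (Polynomial.funext fun u => by rw [hcon u, Polynomial.eval_zero])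
  obtain ⟨u, hu⟩ := h3
  refine ⟨u, fun l => ?_⟩
  rw [Polynomial.eval_prod, Finset.prod_ne_zero_iff] at hu
  have h4 := hu l (Finset.mem_univ l)
  have h5 : ((Polynomial.aeval u : Polynomial K →ₐ[K] K).comp
      ((aeval (fun i : Fin n => cv K M (i + 1)) : MvPolynomial (Fin n) K →ₐ[K] _).comp
      (aff A b))) = aeval (fun j => b j + (gpA A M j).eval u) := by
    apply MvPolynomial.algHom_ext
    intro j
    rw [AlgHom.comp_apply, AlgHom.comp_apply, aff, aeval_X, aeval_X, map_add, map_add, map_sum,
      map_sum, aeval_C, gpA, Polynomial.eval_finsetSum]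
    congr 1
    · rw [Polynomial.coe_aeval_eq_eval]
      exact Polynomial.eval_C
    · refine Finset.sum_congr rfl fun i _ => ?_
      rw [map_mul, aeval_X, aeval_C, map_mul, Polynomial.eval_mul, Polynomial.coe_aeval_eq_eval,
        Polynomial.eval_C]
      congr 1
      exact Polynomial.eval_C
  have h6 := congrArg (fun g : MvPolynomial (Fin n) K →ₐ[K] K => g (q l)) h5
  simp only [AlgHom.comp_apply, Polynomial.coe_aeval_eq_eval] at h6
  intro h7
  apply h4
  rw [h6]
  exact h7

end Pool.Agent.ORG
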