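import Pool.Agent.ORG.Aff
import Pool.Agent.ORG.Init
import Pool.Agent.ORG.Sp
import Pool.Agent.ORG.SpD
import Pool.Agent.ORB.H1

/-!
# ORG: the base generator hits frame leaves in unknown coordinates
-/

set_option autoImplicit false

namespace Pool.Agent.ORG

open MvPolynomial Pool.Agent.ORB

variable {K : Type*} [Field K] [CharZero K] {n : ℕ}

omit [CharZero K] in
private theorem bs_scale {k : ℕ} {φ : MvPolynomial (Fin n) K} (h : φ.IsHomogeneous k) (z : K)
    (y : Fin n → K) : eval (fun j => z * y j) φ = z ^ k * eval y φ := by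
  rw [eval_eq', eval_eq', Finset.mul_sum]
  refine Finset.sum_congr rfl fun d hd => ?_
  have h1 : ∑ i, d i = k := by
    have h2 := h (mem_support_iff.1 hd)
    rw [← h2, Finsupp.weight_apply, Finsupp.sum_fintype]
    · refine Finset.sum_congr rfl fun i _ => ?_
      simp
    · intro i
      simp
  have h2 : ∏ i, (z * y i) ^ d i = z ^ k * ∏ i, y i ^ d i := by
    simp only [mul_pow]
    rw [Finset.prod_mul_distrib, Finset.prod_pow_eq_pow_sum, h1]
  rw [h2]
  ring

omit [CharZero K] in
private theorem bs_eval (β y : Fin n → K) (z : K) (F : MvPolynomial (Fin n) K) :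
    eval (fun j => β j + z * y j) F =
      ∑ k ∈ Finset.range ((tr β F).totalDegree + 1), z ^ k * eval y (homogeneousComponent k (tr β F)) := by
  have h1 : eval (fun j => β j + z * y j) F = eval (fun j => z * y j) (tr β F) := by
    have h : (aeval (fun j => z * y j) : MvPolynomial (Fin n) K →ₐ[K] K).comp (tr β) =
        aeval (fun j => β j + z * y j) := by
      apply MvPolynomial.algHom_ext
      intro j
      rw [AlgHom.comp_apply, tr, aeval_X, aeval_X, map_add, aeval_X, aeval_C]
      rfl
    have h2 := congrArg (fun g : MvPolynomial (Fin n) K →ₐ[K] K => g F) h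
    exact h2.symm
  rw [h1]
  conv_lhs => rw [← sum_homogeneousComponent (tr β F)]
  rw [map_sum]
  exact Finset.sum_congr rfl fun k _ => bs_scale (homogeneousComponent_isHomogeneous k _) z y

theorem base_hit (A : Matrix (Fin n) (Fin n) K) (hA : A.det ≠ 0) (b : Fin n → K) (s s' M : ℕ)
    (hM : n * s ^ 2 ≤ M) (hM2 : n * s' ^ 2 ≤ M)
    {a : Matrix (Fin n) (Fin n) (MvPolynomial (Fin n) K)} (ha : IsFrame a s')
    {F : MvPolynomial (Fin n) K} (hF : FrameLeaf a s F) (hF0 : F ≠ 0) :
    aeval (gam0 A b M) F ≠ 0 := by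
  obtain ⟨_, m', q, hq0, hq, hdet⟩ := ha
  obtain ⟨u, hu⟩ := exists_base A hA b s' M hM2 q hq0 hq
  obtain ⟨m, V, hfd, hd, hV, hmem, hne, -⟩ :=
    exists_initial hF hF0 (fun j => b j + (gpA A M j).eval u) (hdet _ hu)
  obtain ⟨β, hβ⟩ : ∃ β : Fin n → K, β = fun j => b j + (gpA A M j).eval u := ⟨_, rfl⟩
  rw [← hβ] at hmem hne
  -- the polynomial in one variable is not zero
  have hq' : aeval (gpA A M) (homogeneousComponent m (tr β F)) ≠ 0 := by
    have h1 : aeval (fun i : Fin n => cv K M (i + 1)) (aff A 0 (homogeneousComponent m (tr β F))) ≠ 0 := by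
      refine curve_ne_zero n s M hM _ ?_ (V.map (aff A (0 : Fin n → K)).toLinearMap) ?_ ?_ ?_ ?_
      · intro h0
        exact hne (aff_injective A hA 0 (by rw [h0, map_zero]))
      · rintro _ ⟨h, hh, rfl⟩ i
        show pderiv i (aff A 0 h) ∈ _
        rw [pderiv_aff]
        refine Submodule.sum_mem _ fun j _ => ?_
        rw [← smul_eq_C_mul]
        exact Submodule.smul_mem _ _ ⟨_, hV h hh j, rfl⟩
      · infer_instance
      · exact (Submodule.finrank_map_le _ _).trans hd
      · exact ⟨_, hmem, rfl⟩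
    have h2 : (aeval (fun i : Fin n => cv K M (i + 1)) : MvPolynomial (Fin n) K →ₐ[K] _).comp
        (aff A (0 : Fin n → K)) = aeval (gpA A M) := by
      apply MvPolynomial.algHom_ext
      intro j
      rw [AlgHom.comp_apply, aff, aeval_X, aeval_X, Pi.zero_apply, C_0, zero_add, map_sum, gpA]
      refine Finset.sum_congr rfl fun i _ => ?_
      rw [map_mul, aeval_X, aeval_C]
      rfl
    have h3 := congrArg (fun g : MvPolynomial (Fin n) K →ₐ[K] Polynomial K =>
      g (homogeneousComponent m (tr β F))) h2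
    simp only [AlgHom.comp_apply] at h3
    rw [← h3]
    exact h1
  obtain ⟨t, ht⟩ : ∃ t : K, (aeval (gpA A M) (homogeneousComponent m (tr β F))).eval t ≠ 0 := by
    by_contra hcon
    push Not at hcon
    exact hq' (Polynomial.funext fun x => by rw [hcon x, Polynomial.eval_zero])
  have hy : eval (fun j => (gpA A M j).eval t) (homogeneousComponent m (tr β F)) ≠ 0 := by
    have h2 : (Polynomial.aeval t : Polynomial K →ₐ[K] K).comp (aeval (gpA A M)) =
        aeval (fun j => (gpA A M j).eval t) := by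
      apply MvPolynomial.algHom_ext
      intro j
      rw [AlgHom.comp_apply, aeval_X, aeval_X, Polynomial.coe_aeval_eq_eval]
    have h3 := congrArg (fun g : MvPolynomial (Fin n) K →ₐ[K] K =>
      g (homogeneousComponent m (tr β F))) h2
    simp only [AlgHom.comp_apply, Polynomial.coe_aeval_eq_eval] at h3
    intro h4
    apply ht
    rw [h3]
    exact h4
  intro h0
  have hz : ∀ z : K, ∑ k ∈ Finset.range ((tr β F).totalDegree + 1),
      z ^ k * eval (fun j => (gpA A M j).eval t) (homogeneousComponent k (tr β F)) = 0 := by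
    intro z
    rw [← bs_eval]
    have h2 : (aeval (![u, z, t] : Fin 3 → K) : MvPolynomial (Fin 3) K →ₐ[K] K).comp
        (aeval (gam0 A b M)) = aeval (fun j => β j + z * (gpA A M j).eval t) := by
      apply MvPolynomial.algHom_ext
      intro j
      rw [AlgHom.comp_apply, aeval_X, aeval_X, gam0, map_add, map_add, map_mul, aeval_C, aeval_X,
        ← Polynomial.aeval_algHom_apply, ← Polynomial.aeval_algHom_apply, aeval_X, aeval_X, hβ]
      simp only [Polynomial.coe_aeval_eq_eval]
      rfl
    have h3 := congrArg (fun g : MvPolynomial (Fin n) K →ₐ[K] K => g F) h2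
    simp only [AlgHom.comp_apply] at h3
    rw [h0, map_zero] at h3
    exact h3.symm
  have hP : (∑ k ∈ Finset.range ((tr β F).totalDegree + 1),
      Polynomial.C (eval (fun j => (gpA A M j).eval t) (homogeneousComponent k (tr β F))) *
        Polynomial.X ^ k : Polynomial K) = 0 := by
    apply Polynomial.funext
    intro z
    rw [Polynomial.eval_finsetSum, Polynomial.eval_zero, ← hz z]
    refine Finset.sum_congr rfl fun k _ => ?_
    rw [Polynomial.eval_mul, Polynomial.eval_C, Polynomial.eval_pow, Polynomial.eval_X, mul_comm]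
  have hm : m < (tr β F).totalDegree + 1 := by
    by_contra hcon
    exact hne (homogeneousComponent_eq_zero _ _ (by omega))
  have hc := congrArg (fun p : Polynomial K => p.coeff m) hP
  simp only [Polynomial.finsetSum_coeff, Polynomial.coeff_C_mul_X_pow, Polynomial.coeff_zero] at hc
  rw [Finset.sum_ite_eq, if_pos (Finset.mem_range.2 hm)] at hc
  exact hy hc

theorem leaf_H1 (A : Matrix (Fin n) (Fin n) K) (hA : A.det ≠ 0) (b : Fin n → K) (s M M0 Δ : ℕ)
    (hM : n * (M0.factorial * (n ^ (Δ + 1) * s) ^ M0) ^ 2 ≤ M) (hM2 : n * s ^ 2 ≤ M)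
    {a : Matrix (Fin n) (Fin n) (MvPolynomial (Fin n) K)} (ha : IsFrame a s) :
    H1 (gpA A M) (gam0 A b M) 0 (Dc {g | FrameLeaf a s g} Δ) M0 := by
  intro N hN f hf J hdet
  apply PhiP_of_aeval
  have h1 : ∀ i j, FrameLeaf a (n ^ (Δ + 1) * s) (pderiv (J j) (f i)) := by
    intro i j
    obtain ⟨L, hL, g, hg, hag⟩ := hf i
    have hn : 1 ≤ n := (Nat.succ_le_of_lt (Nat.lt_of_le_of_lt (Nat.zero_le _) (J j).isLt))
    have h2 := FrameLeaf.pd ha.1 hg (J j :: L)
    rw [pd_cons, ← hag, List.length_cons] at h2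
    exact h2.mono (Nat.mul_le_mul_right _ (Nat.pow_le_pow_right hn (by omega)))
  rcases Nat.eq_zero_or_pos (n ^ (Δ + 1) * s) with hs | hs
  · rw [hs] at h1
    rcases Nat.eq_zero_or_pos N with h0 | h0
    · subst h0
      rw [Matrix.det_isEmpty, map_one]
      exact one_ne_zero
    · have h2 := FrameLeaf.det _ h1
      exfalso
      obtain ⟨W, hW1, hW2, hW3, _⟩ := h2
      rw [zero_pow (by omega), mul_zero, Nat.le_zero, Submodule.finrank_eq_zero] at hW2
      rw [hW2, Submodule.mem_bot] at hW3
      exact hdet hW3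
  · refine base_hit A hA b _ s M ?_ hM2 ha (FrameLeaf.det _ h1) hdet
    refine le_trans (Nat.mul_le_mul_left _ (Nat.pow_le_pow_left ?_ _)) hM
    exact Nat.mul_le_mul (Nat.factorial_le hN) (Nat.pow_le_pow_right hs hN)

end Pool.Agent.ORG
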