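import Pool.Agent.ORG.Minor

/-!
# ORG: the frame of matrix products
-/

set_option autoImplicit false

namespace Pool.Agent.ORG

open MvPolynomial

variable {K : Type*} [Field K] {n T w r : ℕ}

/- The frame of matrix products is nonsingular where the matrices and the other variables are.
-/
private theorem immF_ll (e : Fin n ≃ (Fin T × Fin w × Fin w) ⊕ Fin r) (cut : Finset (Fin T)) (B : Finset (Fin r))
    (β : Fin n → K) (l l' : Fin T) (a b a' b' : Fin w) :
    ((immFrame K e cut B).map (eval β)) (e.symm (Sum.inl (l, a, b))) (e.symm (Sum.inl (l', a', b'))) =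
      (if l' = l ∧ a' = a then β (e.symm (Sum.inl (l, b, b'))) else 0) -
        (if (l' : ℕ) + 1 = l ∧ l ∉ cut ∧ b' = b then β (e.symm (Sum.inl (l', a', a))) else 0) := by
  rw [Matrix.map_apply]
  unfold immFrame
  simp only [Matrix.of_apply, Equiv.apply_symm_apply, map_sub]
  congr 1
  · split_ifs
    · exact eval_X _
    · exact map_zero _
  · split_ifs
    · exact eval_X _
    · exact map_zero _

private theorem immF_rl (e : Fin n ≃ (Fin T × Fin w × Fin w) ⊕ Fin r) (cut : Finset (Fin T)) (B : Finset (Fin r))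
    (β : Fin n → K) (p : Fin r) (l' : Fin T) (a' b' : Fin w) :
    ((immFrame K e cut B).map (eval β)) (e.symm (Sum.inr p)) (e.symm (Sum.inl (l', a', b'))) = 0 := by
  rw [Matrix.map_apply]
  unfold immFrame
  simp only [Matrix.of_apply, Equiv.apply_symm_apply, map_zero]

private theorem immF_lr (e : Fin n ≃ (Fin T × Fin w × Fin w) ⊕ Fin r) (cut : Finset (Fin T)) (B : Finset (Fin r))
    (β : Fin n → K) (p : Fin r) (l' : Fin T) (a' b' : Fin w) :
    ((immFrame K e cut B).map (eval β)) (e.symm (Sum.inl (l', a', b'))) (e.symm (Sum.inr p)) = 0 := by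
  rw [Matrix.map_apply]
  unfold immFrame
  simp only [Matrix.of_apply, Equiv.apply_symm_apply, map_zero]

private theorem immF_rr (e : Fin n ≃ (Fin T × Fin w × Fin w) ⊕ Fin r) (cut : Finset (Fin T)) (B : Finset (Fin r))
    (β : Fin n → K) (p q : Fin r) :
    ((immFrame K e cut B).map (eval β)) (e.symm (Sum.inr p)) (e.symm (Sum.inr q)) =
      if p = q then (if p ∈ B then 1 else β (e.symm (Sum.inr p))) else 0 := by
  rw [Matrix.map_apply]
  unfold immFrame
  simp only [Matrix.of_apply, Equiv.apply_symm_apply]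
  split_ifs
  · exact map_one _
  · exact eval_X _
  · exact map_zero _

theorem det_immFrame_ne_zero (e : Fin n ≃ (Fin T × Fin w × Fin w) ⊕ Fin r) (cut : Finset (Fin T))
    (B : Finset (Fin r)) (β : Fin n → K) (h1 : ∀ l, eval β (Mt K e l).det ≠ 0)
    (h2 : ∀ p, p ∉ B → β (e.symm (Sum.inr p)) ≠ 0) :
    ((immFrame K e cut B).map (eval β)).det ≠ 0 := by
  intro hdet
  obtain ⟨c, hc0, hc⟩ := Matrix.exists_vecMul_eq_zero_iff.2 hdet
  set A := (immFrame K e cut B).map (eval β) with hA
  -- the columns
  have hcol : ∀ i, (∑ t : Fin T × Fin w × Fin w, c (e.symm (Sum.inl t)) * A (e.symm (Sum.inl t)) i) +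
      ∑ p : Fin r, c (e.symm (Sum.inr p)) * A (e.symm (Sum.inr p)) i = 0 := by
    intro i
    have h3 := congrFun hc i
    simp only [Matrix.vecMul, dotProduct, Pi.zero_apply] at h3
    rw [← Equiv.sum_comp e.symm (fun j => c j * A j i), Fintype.sum_sum_type] at h3
    exact h3
  let C : Fin T → Matrix (Fin w) (Fin w) K := fun l => Matrix.of fun a b => c (e.symm (Sum.inl (l, a, b)))
  let N : Fin T → Matrix (Fin w) (Fin w) K := fun l => Matrix.of fun a b => β (e.symm (Sum.inl (l, a, b)))
  have hN : ∀ l, (N l).det ≠ 0 := by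
    intro l h3
    refine h1 l ?_
    rw [RingHom.map_det]
    have h4 : (eval β).mapMatrix (Mt K e l) = N l := by
      ext a b
      simp only [RingHom.mapMatrix_apply, Matrix.map_apply, Mt, Matrix.of_apply, eval_X, N]
    rw [h4]
    exact h3
  have hrec : ∀ l' : Fin T, ∀ a' b', (C l' * N l') a' b' =
      ∑ t : Fin T × Fin w × Fin w, c (e.symm (Sum.inl t)) *
        (if (l' : ℕ) + 1 = t.1 ∧ t.1 ∉ cut ∧ b' = t.2.2 then β (e.symm (Sum.inl (l', a', t.2.1))) else 0) := by
    intro l' a' b'
    have h3 := hcol (e.symm (Sum.inl (l', a', b')))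
    have h4 : ∀ p : Fin r, c (e.symm (Sum.inr p)) * A (e.symm (Sum.inr p)) (e.symm (Sum.inl (l', a', b'))) = 0 := by
      intro p
      rw [hA, immF_rl, mul_zero]
    rw [Finset.sum_congr rfl (fun p _ => h4 p), Finset.sum_const_zero, add_zero] at h3
    have h5 : ∀ t : Fin T × Fin w × Fin w, c (e.symm (Sum.inl t)) * A (e.symm (Sum.inl t)) (e.symm (Sum.inl (l', a', b'))) =
        c (e.symm (Sum.inl t)) * (if l' = t.1 ∧ a' = t.2.1 then β (e.symm (Sum.inl (t.1, t.2.2, b'))) else 0) -
        c (e.symm (Sum.inl t)) *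
        (if (l' : ℕ) + 1 = t.1 ∧ t.1 ∉ cut ∧ b' = t.2.2 then β (e.symm (Sum.inl (l', a', t.2.1))) else 0) := by
      rintro ⟨l, a, b⟩
      rw [hA, immF_ll, mul_sub]
    rw [Finset.sum_congr rfl (fun t _ => h5 t), Finset.sum_sub_distrib, sub_eq_zero] at h3
    rw [← h3, Matrix.mul_apply]
    symm
    rw [Fintype.sum_prod_type, Finset.sum_eq_single l']
    · rw [Fintype.sum_prod_type, Finset.sum_eq_single a']
      · refine Finset.sum_congr rfl fun b _ => ?_
        rw [if_pos ⟨rfl, rfl⟩]
        rfl
      · intro a _ ha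
        refine Finset.sum_eq_zero fun b _ => ?_
        rw [if_neg fun h6 => ha h6.2.symm, mul_zero]
      · intro h6
        exact absurd (Finset.mem_univ _) h6
    · intro l _ hl
      refine Finset.sum_eq_zero fun t _ => ?_
      rw [if_neg fun h6 => hl h6.1.symm, mul_zero]
    · intro h6
      exact absurd (Finset.mem_univ _) h6
  have hC : ∀ k : ℕ, ∀ l : Fin T, T ≤ l + k → C l = 0 := by
    intro k
    induction k with
    | zero => intro l hl; exact absurd l.2 (not_lt.2 hl)
    | succ k ih =>
      intro l hl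
      have h3 : C l * N l = 0 := by
        ext a' b'
        rw [hrec l a' b', Matrix.zero_apply]
        refine Finset.sum_eq_zero ?_
        rintro ⟨l1, a, b⟩ _
        split_ifs with h4
        · have h5 := ih l1 (by have := h4.1; simp only at this; omega)
          have h6 : c (e.symm (Sum.inl (l1, a, b))) = 0 := congrFun (congrFun h5 a) b
          rw [h6, zero_mul]
        · exact mul_zero _
      have h4 : IsUnit (N l).det := isUnit_iff_ne_zero.2 (hN l)
      calc C l = C l * (N l * (N l)⁻¹) := by rw [Matrix.mul_nonsing_inv _ h4, mul_one]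
        _ = 0 := by rw [← mul_assoc, h3, zero_mul]
  refine hc0 ?_
  ext j
  rw [Pi.zero_apply]
  obtain ⟨t, rfl⟩ := e.symm.surjective j
  rcases t with ⟨l, a, b⟩ | p
  · have h3 := hC T l (by omega)
    exact congrFun (congrFun h3 a) b
  · have h3 := hcol (e.symm (Sum.inr p))
    have h4 : ∀ t : Fin T × Fin w × Fin w, c (e.symm (Sum.inl t)) * A (e.symm (Sum.inl t)) (e.symm (Sum.inr p)) = 0 := by
      rintro ⟨l, a, b⟩
      rw [hA, immF_lr, mul_zero]
    rw [Finset.sum_congr rfl (fun t _ => h4 t), Finset.sum_const_zero, zero_add, Finset.sum_eq_single p, hA, immF_rr,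
      if_pos rfl] at h3
    · rcases mul_eq_zero.1 h3 with h5 | h5
      · exact h5
      · exfalso
        split_ifs at h5 with h6
        · exact one_ne_zero h5
        · exact h2 p h6 h5
    · intro q _ hq
      rw [hA, immF_rr, if_neg hq, mul_zero]
    · intro h6
      exact absurd (Finset.mem_univ _) h6

end Pool.Agent.ORG
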