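import Pool.Agent.ORG.Defs
import Pool.Agent.ORB.InitA

/-!
# ORG: the space of the initial forms is closed under derivatives
-/

set_option autoImplicit false

namespace Pool.Agent.ORG

open MvPolynomial Pool.Agent.ORB

variable {K : Type*} [Field K] {n : ℕ}

private theorem ib_pderiv (k : ℕ) (j : Fin n) (h : MvPolynomial (Fin n) K) :
    homogeneousComponent k (pderiv j h) = pderiv j (homogeneousComponent (k + 1) h) := by
  ext d
  rw [coeff_homogeneousComponent, coeff_pderiv, coeff_pderiv, coeff_homogeneousComponent]
  have h1 : (d + Finsupp.single j 1).degree = d.degree + 1 := by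
    rw [map_add, Finsupp.degree_single]
  rw [h1]
  by_cases h2 : d.degree = k
  · rw [if_pos h2, if_pos (by omega)]
  · rw [if_neg h2, if_neg (by omega), zero_mul]

private theorem ib_coeff_low {m : ℕ} {g : MvPolynomial (Fin n) K}
    (hg : ∀ k < m, homogeneousComponent k g = 0) (b : Fin n →₀ ℕ) (hb : b.degree < m) :
    coeff b g = 0 := by
  have h2 := congrArg (coeff b) (hg _ hb)
  rwa [coeff_homogeneousComponent, if_pos rfl, coeff_zero] at h2

private theorem ib_coeff_mul {m : ℕ} {g : MvPolynomial (Fin n) K}
    (hg : ∀ k < m, homogeneousComponent k g = 0) (p : MvPolynomial (Fin n) K) (d : Fin n →₀ ℕ)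
    (hd : d.degree ≤ m) : coeff d (p * g) = constantCoeff p * coeff d g := by
  classical
  rw [coeff_mul, Finset.sum_eq_single (0, d)]
  · rw [constantCoeff_eq]
  · rintro ⟨a, b⟩ hab hne
    rw [Finset.HasAntidiagonal.mem_antidiagonal] at hab
    by_cases hbm : b.degree < m
    · rw [ib_coeff_low hg b hbm, mul_zero]
    · exfalso
      apply hne
      have h1 : a.degree + b.degree = d.degree := by rw [← map_add, hab]
      have ha : a.degree = 0 := by omega
      have ha0 : a = 0 := by rwa [Finsupp.degree_eq_zero_iff] at ha
      subst ha0
      have hab' : b = d := by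
        rw [← hab]
        exact (zero_add b).symm
      rw [hab']
  · intro h
    exact absurd (Finset.HasAntidiagonal.mem_antidiagonal.2 (zero_add d)) h

private theorem ib_mul_low {m : ℕ} {g : MvPolynomial (Fin n) K}
    (hg : ∀ k < m, homogeneousComponent k g = 0) (p : MvPolynomial (Fin n) K) (k : ℕ) (hk : k < m) :
    homogeneousComponent k (p * g) = 0 := by
  ext d
  rw [coeff_homogeneousComponent, coeff_zero]
  by_cases h : d.degree = k
  · rw [if_pos h, ib_coeff_mul hg p d (by omega), ib_coeff_low hg d (by omega), mul_zero]
  · rw [if_neg h]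

private theorem ib_mul_eq {m : ℕ} {g : MvPolynomial (Fin n) K}
    (hg : ∀ k < m, homogeneousComponent k g = 0) (p : MvPolynomial (Fin n) K) :
    homogeneousComponent m (p * g) = C (constantCoeff p) * homogeneousComponent m g := by
  ext d
  rw [coeff_homogeneousComponent, coeff_C_mul, coeff_homogeneousComponent]
  by_cases h : d.degree = m
  · rw [if_pos h, if_pos h, ib_coeff_mul hg p d (by omega)]
  · rw [if_neg h, if_neg h, mul_zero]

/- PLAN. Model: `Pool.Agent.ORB.InitB` (its private lemmas may be copied).  If the components of `g`
of degree `< m` vanish then for every `p`: the components of `p * g` of degree `< m` vanish and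
`homogeneousComponent m (p * g) = C (constantCoeff p) * homogeneousComponent m g` (`coeff_mul`,
`Finset.mem_antidiagonal`).  By `Submodule.span_induction` it is enough to treat
`v = homogeneousComponent m h`, `h ∈ W`, lower components `0`.  `m = 0`: `pderiv j v = 0`.
`m = m' + 1`: for every `k` the member `∑ i, c k i * pderiv i h` of `W` has zero components below
`m'` and its component of degree `m'` is `∑ i, C (constantCoeff (c k i)) * pderiv i v`
(`homogeneousComponent k (pderiv i h) = pderiv i (homogeneousComponent (k + 1) h)`), so this sum is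
in the span; the matrix `C0 = c.map constantCoeff` is invertible over `K`, so `pderiv j v =
∑ k, C0⁻¹ j k • ∑ i, C (C0 k i) * pderiv i v` is in the span (`Matrix.nonsing_inv_mul`). -/
theorem pderiv_mem_span_initS (c : Matrix (Fin n) (Fin n) (MvPolynomial (Fin n) K))
    (hc : (c.map constantCoeff).det ≠ 0)
    (W : Submodule K (MvPolynomial (Fin n) K)) (hW : ∀ h ∈ W, ∀ j, ∑ i, c j i * pderiv i h ∈ W)
    (v : MvPolynomial (Fin n) K) (hv : v ∈ Submodule.span K (initS W)) (j : Fin n) :
    pderiv j v ∈ Submodule.span K (initS W) := by
  induction hv using Submodule.span_induction with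
  | zero => rw [map_zero]; exact Submodule.zero_mem _
  | add x y _ _ hx hy => rw [map_add]; exact Submodule.add_mem _ hx hy
  | smul a x _ hx =>
    have h1 : pderiv j (a • x) = a • pderiv j x := Derivation.map_smul _ _ _
    rw [h1]
    exact Submodule.smul_mem _ _ hx
  | mem v hv =>
    obtain ⟨m, h, hhW, hlow, rfl⟩ := hv
    cases m with
    | zero =>
      rw [homogeneousComponent_zero, pderiv_C]
      exact Submodule.zero_mem _
    | succ m =>
      have hpl : ∀ i : Fin n, ∀ k < m, homogeneousComponent k (pderiv i h) = 0 := by
        intro i k hk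
        rw [ib_pderiv, hlow (k + 1) (by omega), map_zero]
      have hw : ∀ k : Fin n, ∑ i, (constantCoeff (c k i)) • pderiv i (homogeneousComponent (m + 1) h) ∈
          Submodule.span K (initS W) := by
        intro k
        refine Submodule.subset_span ⟨m, ∑ i, c k i * pderiv i h, hW h hhW k, fun k' hk' => ?_, ?_⟩
        · rw [map_sum]
          exact Finset.sum_eq_zero fun i _ => ib_mul_low (hpl i) _ _ hk'
        · rw [map_sum]
          refine Finset.sum_congr rfl fun i _ => ?_
          rw [ib_mul_eq (hpl i), ib_pderiv, C_mul']
      have hunit : IsUnit (c.map constantCoeff).det := isUnit_iff_ne_zero.mpr hc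
      have hinv := Matrix.nonsing_inv_mul (c.map constantCoeff) hunit
      have heq : pderiv j (homogeneousComponent (m + 1) h) =
          ∑ k, ((c.map constantCoeff)⁻¹ j k) •
            ∑ i, (constantCoeff (c k i)) • pderiv i (homogeneousComponent (m + 1) h) := by
        simp_rw [Finset.smul_sum, smul_smul]
        rw [Finset.sum_comm]
        simp_rw [← Finset.sum_smul]
        have h1 : ∀ i : Fin n, ∑ k, (c.map constantCoeff)⁻¹ j k * constantCoeff (c k i) =
            (1 : Matrix (Fin n) (Fin n) K) j i := by
          intro i
          rw [← hinv, Matrix.mul_apply]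
          rfl
        simp_rw [h1]
        rw [Finset.sum_eq_single j]
        · rw [Matrix.one_apply_eq, one_smul]
        · intro i _ hi
          rw [Matrix.one_apply_ne (Ne.symm hi), zero_smul]
        · intro hj
          exact absurd (Finset.mem_univ _) hj
      rw [heq]
      exact Submodule.sum_mem _ fun k _ => Submodule.smul_mem _ _ (hw k)

end Pool.Agent.ORG
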