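import Pool.Agent.ORG.Defs

/-!
# ORG: the derivatives of a determinant of size `w` span a space of dimension at most `4^w`
-/

set_option autoImplicit false

namespace Pool.Agent.ORG

open MvPolynomial

variable {K : Type*} [Field K] {n : ℕ}

private lemma D_prod {A : Type*} [CommRing A] [Algebra K A] (D : Derivation K A A) {ι : Type*}
    [DecidableEq ι] (s : Finset ι) (f : ι → A) :
    D (∏ i ∈ s, f i) = ∑ i ∈ s, D (f i) * ∏ j ∈ s.erase i, f j := by
  induction s using Finset.induction_on with
  | empty => simp
  | insert a s ha ih =>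
    rw [Finset.prod_insert ha, D.leibniz, ih, Finset.sum_insert ha, Finset.erase_insert ha,
      smul_eq_mul, smul_eq_mul, mul_comm (∏ i ∈ s, f i) (D (f a)), Finset.mul_sum, add_comm]
    congr 1
    refine Finset.sum_congr rfl fun i hi => ?_
    have hne : a ≠ i := fun h => ha (h ▸ hi)
    rw [Finset.erase_insert_of_ne hne, Finset.prod_insert (fun h => ha (Finset.mem_of_mem_erase h))]
    ring

private lemma D_det {A : Type*} [CommRing A] [Algebra K A] (D : Derivation K A A) {k : ℕ}
    (N : Matrix (Fin (k + 1)) (Fin (k + 1)) A) :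
    D N.det = ∑ i : Fin (k + 1), ∑ j : Fin (k + 1), D (N i j) *
      ((-1) ^ (i + j : ℕ) * (N.submatrix i.succAbove j.succAbove).det) := by
  have h1 : D N.det = ∑ j : Fin (k + 1), (N.updateCol j (fun a => D (N a j))).det := by
    simp only [Matrix.det_apply']
    rw [Finset.sum_comm, map_sum]
    refine Finset.sum_congr rfl fun σ _ => ?_
    rw [D.leibniz, D_prod, ← Finset.mul_sum]
    have hz : D ((Equiv.Perm.sign σ : ℤ) : A) = 0 := by
      exact D.map_intCast _
    rw [hz, smul_zero, add_zero, smul_eq_mul]
    congr 1
    refine Finset.sum_congr rfl fun j _ => ?_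
    rw [← Finset.mul_prod_erase Finset.univ _ (Finset.mem_univ j)]
    simp only [Matrix.updateCol_self]
    congr 1
    refine Finset.prod_congr rfl fun i hi => ?_
    rw [Matrix.updateCol_ne (Finset.ne_of_mem_erase hi)]
  rw [h1, Finset.sum_comm]
  refine Finset.sum_congr rfl fun j _ => ?_
  rw [Matrix.det_succ_column _ j]
  refine Finset.sum_congr rfl fun i _ => ?_
  have h2 : (N.updateCol j fun a => D (N a j)).submatrix i.succAbove j.succAbove =
      N.submatrix i.succAbove j.succAbove := by
    ext a b
    simp [Matrix.submatrix_apply, Matrix.updateCol_ne (Fin.succAbove_ne j b)]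
  rw [h2, Matrix.updateCol_self]
  ring

open Classical in
private noncomputable def FF {w : ℕ} (M : Matrix (Fin w) (Fin w) (MvPolynomial (Fin n) K))
    (q : Finset (Fin w) × Finset (Fin w)) : MvPolynomial (Fin n) K :=
  if h : q.2.card = q.1.card then
    (M.submatrix (q.1.orderEmbOfFin rfl) (q.2.orderEmbOfFin h)).det else 0

private lemma FF_eq {w : ℕ} (M : Matrix (Fin w) (Fin w) (MvPolynomial (Fin n) K)) (k : ℕ)
    (S T : Finset (Fin w)) (hS : S.card = k) (hT : T.card = k) :
    (M.submatrix (S.orderEmbOfFin hS) (T.orderEmbOfFin hT)).det = FF M (S, T) := by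
  subst hS
  simp [FF, hT]

private lemma minor_mem {w : ℕ} (M : Matrix (Fin w) (Fin w) (MvPolynomial (Fin n) K)) (k : ℕ)
    (f g : Fin k → Fin w) (hf : StrictMono f) (hg : StrictMono g) :
    (M.submatrix f g).det ∈ Set.range (FF M) := by
  classical
  have hS : (Finset.univ.image f).card = k := by
    rw [Finset.card_image_of_injective _ hf.injective]; simp
  have hT : (Finset.univ.image g).card = k := by
    rw [Finset.card_image_of_injective _ hg.injective]; simp
  refine ⟨(Finset.univ.image f, Finset.univ.image g), ?_⟩
  rw [← FF_eq M k _ _ hS hT]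
  have h1 : f = (Finset.univ.image f).orderEmbOfFin hS :=
    Finset.orderEmbOfFin_unique hS (fun x => Finset.mem_image_of_mem _ (Finset.mem_univ x)) hf
  have h2 : g = (Finset.univ.image g).orderEmbOfFin hT :=
    Finset.orderEmbOfFin_unique hT (fun x => Finset.mem_image_of_mem _ (Finset.mem_univ x)) hg
  rw [← h1, ← h2]

/- PLAN. `W = span 𝒮`, `𝒮 = {x | ∃ k, ∃ f g : Fin k → Fin w, StrictMono f ∧ StrictMono g ∧
x = (M.submatrix f g).det}`.  `𝒮` injects into `Finset (Fin w) × Finset (Fin w)` (choose `k, f, g` for
every member; `x ↦ (image f, image g)`; the images determine `k` (their cardinality) and `f, g`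
(`StrictMono.range_inj`)), so it is finite with at most `2^w * 2^w = 4^w` members
(`finrank_span_le_card` / `Set.finrank`).  Derivative: for `N = M.submatrix f g` of size `k + 1`
`pderiv v N.det = ∑ i, ∑ j, pderiv v (N i j) * ((-1)^(i+j) * (N.submatrix i.succAbove j.succAbove).det)`
(from `Matrix.det_apply` or by induction from `Matrix.det_succ_row_zero` and the Leibniz rule; or
the row form `D (det N) = ∑ i, det (N.updateRow i (D ∘ N i))` and `Matrix.det_succ_row`),
`pderiv v (N i j)` is a constant and `f ∘ i.succAbove`, `g ∘ j.succAbove` are strictly monotone.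
`∑ i, (1 : Matrix _ _ _) j i * pderiv i h = pderiv j h`. -/
theorem frameLeaf_det {w : ℕ} (M : Matrix (Fin w) (Fin w) (MvPolynomial (Fin n) K))
    (hM : ∀ i j v, ∃ c : K, pderiv v (M i j) = C c) : FrameLeaf 1 (4 ^ w) M.det := by
  classical
  have hder : ∀ v : Fin n, ∀ q, pderiv v (FF M q) ∈ Submodule.span K (Set.range (FF M)) := by
    intro v q
    by_cases h0 : q.2.card = q.1.card
    · obtain ⟨k, hk⟩ : ∃ k, q.1.card = k := ⟨_, rfl⟩
      have h : q.2.card = k := h0.trans hk
      rw [show FF M q = FF M (q.1, q.2) from rfl, ← FF_eq M k q.1 q.2 hk h]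
      cases k with
      | zero =>
        rw [Matrix.det_fin_zero]
        simp
      | succ k =>
        rw [D_det]
        refine Submodule.sum_mem _ fun i _ => Submodule.sum_mem _ fun j _ => ?_
        rw [Matrix.submatrix_apply, Matrix.submatrix_submatrix]
        obtain ⟨c, hc⟩ := hM (q.1.orderEmbOfFin hk i) (q.2.orderEmbOfFin h j) v
        rw [hc]
        have hm : (M.submatrix (q.1.orderEmbOfFin hk ∘ i.succAbove)
            (q.2.orderEmbOfFin h ∘ j.succAbove)).det ∈ Submodule.span K (Set.range (FF M)) :=
          Submodule.subset_span (minor_mem M k _ _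
            ((q.1.orderEmbOfFin hk).strictMono.comp (Fin.strictMono_succAbove i))
            ((q.2.orderEmbOfFin h).strictMono.comp (Fin.strictMono_succAbove j)))
        have he : C c * ((-1) ^ (i + j : ℕ) * (M.submatrix (q.1.orderEmbOfFin hk ∘ i.succAbove)
            (q.2.orderEmbOfFin h ∘ j.succAbove)).det) =
            (c * (-1) ^ (i + j : ℕ)) • (M.submatrix (q.1.orderEmbOfFin hk ∘ i.succAbove)
            (q.2.orderEmbOfFin h ∘ j.succAbove)).det := by
          rw [MvPolynomial.smul_eq_C_mul, map_mul, map_pow, map_neg, map_one]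
          ring
        rw [he]
        exact Submodule.smul_mem _ _ hm
    · have h3 : FF M q = 0 := by simp [FF, h0]
      rw [h3, map_zero]
      exact Submodule.zero_mem _
  refine ⟨Submodule.span K (Set.range (FF M)), ?_, ?_, ?_, ?_⟩
  · exact FiniteDimensional.span_of_finite K (Set.finite_range _)
  · have h1 := finrank_range_le_card (R := K) (FF M)
    refine le_trans h1 ?_
    rw [Fintype.card_prod, Fintype.card_finset, Fintype.card_fin, ← mul_pow]
    norm_num
  · exact Submodule.subset_span (by
      have := minor_mem M w id id strictMono_id strictMono_id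
      simpa using this)
  · intro h hh j
    have h1 : ∑ i, (1 : Matrix (Fin n) (Fin n) (MvPolynomial (Fin n) K)) j i * pderiv i h =
        pderiv j h := by
      simp [Matrix.one_apply]
    rw [h1]
    refine Submodule.span_induction (p := fun x _ => pderiv j x ∈
      Submodule.span K (Set.range (FF M))) ?_ ?_ ?_ ?_ hh
    · rintro x ⟨q, rfl⟩
      exact hder j q
    · simp
    · intro x y _ _ hx hy
      rw [map_add]
      exact Submodule.add_mem _ hx hy
    · intro a x _ hx
      rw [(pderiv j).map_smul]
      exact Submodule.smul_mem _ _ hx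

end Pool.Agent.ORG
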